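import Pool.Agent.J4.H30.KB.Core

/-!
# The family of the rational Bohr sets
-/

set_option autoImplicit false

namespace Pool.Agent.J4.H30.KB

open Finset Pool.Agent.H842R3.Bogo Pool.Agent.Y940.BogK

/-- rational Bohr sets -/
noncomputable def RB (M R mm : ℕ) (k : Fin mm → Fin R) (q : ℕ) : Finset ℤ :=
  (Finset.Icc (-(M : ℤ)) (M : ℤ)).filter fun n : ℤ =>
    ∀ i, ‖(((n : ℝ) * ((k i : ℕ) / (R : ℝ)) : ℝ) : UnitAddCircle)‖ ≤ 1 / (q : ℝ)

/-- the family of the rational Bohr sets -/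
noncomputable def bohrFam (M R mm : ℕ) : Finset (Finset ℤ) :=
  (univ : Finset ((Fin mm → Fin R) × Fin (M + 1))).image fun κ => RB M R mm κ.1 (κ.2 : ℕ)

lemma card_bohrFam (M R mm : ℕ) : (bohrFam M R mm).card ≤ R ^ mm * (M + 1) := by
  refine Finset.card_image_le.trans (le_of_eq ?_)
  rw [Finset.card_univ, Fintype.card_prod, Fintype.card_fun, Fintype.card_fin, Fintype.card_fin, Fintype.card_fin]

lemma RB_mem_fam {M R mm : ℕ} (k : Fin mm → Fin R) {q : ℕ} (hq : q ≤ M) : RB M R mm k q ∈ bohrFam M R mm :=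
  Finset.mem_image.2 ⟨(k, ⟨q, by omega⟩), Finset.mem_univ _, rfl⟩

theorem bohr_of_family {kk M d t mm : ℕ} (hM0 : 1 ≤ M) (hM : t ^ d ≤ M) (hmm : t * d ≤ mm) {A : Finset ℤ}
    (h : ∀ F ∈ bohrFam M (M ^ 2) mm, (F : Set ℤ) ⊆ kDiff kk A → F.card ^ 2 * t ^ d ≤ 32 ^ d * M ^ 2)
    (Θ : Finset UnitAddCircle) (ρ : ℝ) (hρ0 : 0 < ρ) (hρ1 : ρ ≤ 1 / 2)
    (hsub : bohrSet Θ ρ M ⊆ kDiff kk A) : t ^ d ≤ 32 ^ d * ⌈2 / ρ⌉₊ ^ (2 * Θ.card) := by
  classical
  have hR : 0 < M ^ 2 := by positivity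
  by_contra hcon
  rw [not_le] at hcon
  rcases Nat.eq_zero_or_pos Θ.card with hm | hm
  · have hΘ : Θ = ∅ := Finset.card_eq_zero.1 hm
    subst hΘ
    have hF : RB M (M ^ 2) mm (fun _ => ⟨0, hR⟩) 1 = Finset.Icc (-(M : ℤ)) (M : ℤ) := by
      unfold RB
      rw [Finset.filter_eq_self]
      intro n _ i
      simp
    have h1 := h _ (RB_mem_fam (fun _ => ⟨0, hR⟩) hM0) (by
      rw [hF]
      intro n hn
      rw [Finset.mem_coe, Finset.mem_Icc] at hn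
      exact hsub ⟨abs_le.2 hn, fun θ hθ => absurd hθ (Finset.notMem_empty θ)⟩)
    rw [hF, Int.card_Icc] at h1
    have h2 : M ≤ ((M : ℤ) + 1 - -(M : ℤ)).toNat := by omega
    have h3 : M ^ 2 * t ^ d ≤ M ^ 2 * 32 ^ d := by
      calc M ^ 2 * t ^ d ≤ ((M : ℤ) + 1 - -(M : ℤ)).toNat ^ 2 * t ^ d :=
            Nat.mul_le_mul_right _ (Nat.pow_le_pow_left h2 2)
        _ ≤ 32 ^ d * M ^ 2 := h1
        _ = _ := by ring
    have h4 := Nat.le_of_mul_le_mul_left h3 hR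
    simp at hcon
    omega
  · obtain ⟨q, hq⟩ : ∃ q : ℕ, q = ⌈2 / ρ⌉₊ := ⟨_, rfl⟩
    rw [← hq] at hcon
    have hq4 : 4 ≤ q := by
      have h1 : (4 : ℝ) ≤ 2 / ρ := by
        rw [le_div_iff₀ hρ0]; linarith
      have h2 : (2 : ℝ) / ρ ≤ q := by rw [hq]; exact Nat.le_ceil _
      have h3 : (4 : ℝ) ≤ q := h1.trans h2
      exact_mod_cast h3
    have hq0 : (0 : ℝ) < q := by
      have : (4 : ℝ) ≤ q := by exact_mod_cast hq4
      linarith
    have hqρ : 2 / (q : ℝ) ≤ ρ := by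
      rw [div_le_iff₀ hq0]
      have h2 : (2 : ℝ) / ρ ≤ q := by rw [hq]; exact Nat.le_ceil _
      rw [div_le_iff₀ hρ0] at h2
      linarith
    have h32 : 1 ≤ 32 ^ d := Nat.one_le_pow _ _ (by norm_num)
    have hqm : q ^ (2 * Θ.card) < t ^ d :=
      lt_of_le_of_lt (Nat.le_mul_of_pos_left _ h32) hcon
    have hqN : q ≤ M := by
      have h1 : q ≤ q ^ (2 * Θ.card) := Nat.le_self_pow (by omega) _
      omega
    have hcard : Θ.card ≤ mm := by
      have h1 : 2 ^ Θ.card ≤ q ^ (2 * Θ.card) := by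
        calc 2 ^ Θ.card ≤ q ^ Θ.card := Nat.pow_le_pow_left (by omega) _
          _ ≤ q ^ (2 * Θ.card) := Nat.pow_le_pow_right (by omega) (by omega)
      have h2 : t ^ d ≤ 2 ^ (t * d) := by
        calc t ^ d ≤ (2 ^ t) ^ d := Nat.pow_le_pow_left Nat.lt_two_pow_self.le _
          _ = 2 ^ (t * d) := by rw [← pow_mul]
      have h3 : 2 ^ Θ.card < 2 ^ (t * d) := by omega
      have h4 := ((Nat.pow_lt_pow_iff_right (by norm_num)).1 h3).le
      omega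
    have hR' : (0 : ℝ) < ((M ^ 2 : ℕ) : ℝ) := by exact_mod_cast hR
    -- rounding
    choose rk hrk using fun θ : UnitAddCircle => exists_round (M ^ 2) hR θ
    let e := Θ.equivFin
    let k : Fin mm → Fin (M ^ 2) := fun i =>
      if h : (i : ℕ) < Θ.card then rk (e.symm ⟨i, h⟩ : Θ) else ⟨0, hR⟩
    have hkΘ : ∀ θ ∈ Θ, ∃ i, k i = rk θ := by
      intro θ hθ
      have h1 : ((e ⟨θ, hθ⟩ : Fin Θ.card) : ℕ) < Θ.card := (e ⟨θ, hθ⟩).2
      refine ⟨⟨(e ⟨θ, hθ⟩ : Fin Θ.card), lt_of_lt_of_le h1 hcard⟩, ?_⟩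
      simp only [k]
      rw [dif_pos h1]
      simp
    have hk' : ∀ i, (∃ θ ∈ Θ, k i = rk θ) ∨ k i = ⟨0, hR⟩ := by
      intro i
      by_cases h : (i : ℕ) < Θ.card
      · left
        refine ⟨(e.symm ⟨i, h⟩ : Θ), (e.symm ⟨i, h⟩ : Θ).2, ?_⟩
        simp only [k]
        rw [dif_pos h]
      · right
        simp only [k]
        rw [dif_neg h]
    -- elements of the rational Bohr set
    have hB1 : ∀ n : ℤ, |n| ≤ (M : ℤ) →
        (∀ i, ‖(((n : ℝ) * ((k i : ℕ) / ((M ^ 2 : ℕ) : ℝ)) : ℝ) : UnitAddCircle)‖ ≤ 1 / (q : ℝ)) →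
        n ∈ bohrSet Θ ρ M := by
      intro n hn hk
      refine ⟨hn, fun θ hθ => ?_⟩
      obtain ⟨i, hi⟩ := hkΘ θ hθ
      have h1 := hrk θ n
      rw [← hi] at h1
      have h2 := hk i
      have h3 : |(n : ℝ)| / ((M ^ 2 : ℕ) : ℝ) ≤ 1 / q := by
        rw [div_le_div_iff₀ hR' hq0]
        have h4 : |(n : ℝ)| ≤ M := by
          have : ((|n| : ℤ) : ℝ) ≤ ((M : ℤ) : ℝ) := by exact_mod_cast hn
          simpa using this
        have h5 : (q : ℝ) ≤ M := by exact_mod_cast hqN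
        push_cast
        nlinarith [abs_nonneg (n : ℝ)]
      have h6 : (2 : ℝ) / q = 1 / q + 1 / q := by ring
      linarith
    -- pigeonhole
    have hpig := bohr_card Θ (fun θ => ((rk θ : ℕ) : ℝ) / ((M ^ 2 : ℕ) : ℝ)) M q (by omega)
    set B := ((Finset.Icc (-(M : ℤ)) (M : ℤ)).filter fun n : ℤ =>
      ∀ θ ∈ Θ, ‖(((n : ℝ) * (((rk θ : ℕ) : ℝ) / ((M ^ 2 : ℕ) : ℝ)) : ℝ) : UnitAddCircle)‖ ≤ 1 / (q : ℝ))
      with hBdef
    have hBF : B ⊆ RB M (M ^ 2) mm k q := by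
      intro n hn
      rw [hBdef, Finset.mem_filter] at hn
      unfold RB
      rw [Finset.mem_filter]
      refine ⟨hn.1, fun i => ?_⟩
      rcases hk' i with ⟨θ, hθ, h⟩ | h
      · rw [h]; exact hn.2 θ hθ
      · rw [h]
        simp only [Nat.cast_zero, zero_div, mul_zero, AddCircle.coe_zero, norm_zero]
        positivity
    have hFsub : (RB M (M ^ 2) mm k q : Set ℤ) ⊆ kDiff kk A := by
      intro n hn
      rw [Finset.mem_coe] at hn
      unfold RB at hn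
      rw [Finset.mem_filter, Finset.mem_Icc] at hn
      exact hsub (hB1 n (abs_le.2 hn.1) hn.2)
    have h1 := h _ (RB_mem_fam k hqN) hFsub
    have h2 : M ≤ q ^ Θ.card * (RB M (M ^ 2) mm k q).card :=
      (Nat.le_succ M).trans (hpig.trans (Nat.mul_le_mul_left _ (Finset.card_le_card hBF)))
    have h3 : M ^ 2 * t ^ d ≤ M ^ 2 * (32 ^ d * q ^ (2 * Θ.card)) := by
      calc M ^ 2 * t ^ d ≤ (q ^ Θ.card * (RB M (M ^ 2) mm k q).card) ^ 2 * t ^ d :=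
            Nat.mul_le_mul_right _ (Nat.pow_le_pow_left h2 2)
        _ = q ^ (2 * Θ.card) * ((RB M (M ^ 2) mm k q).card ^ 2 * t ^ d) := by ring
        _ ≤ q ^ (2 * Θ.card) * (32 ^ d * M ^ 2) := Nat.mul_le_mul_left _ h1
        _ = _ := by ring
    have h4 := Nat.le_of_mul_le_mul_left h3 hR
    omega

end Pool.Agent.J4.H30.KB
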