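import Pool.Agent.J4.H30.KB.Param

/-!
# Bohr sets and coset progressions in `K A - K A`: two special cases
-/

set_option autoImplicit false

namespace Pool.Agent.J4.H30.KB

open Finset

/-- `R = (log (1/α)) ^ (1/4)` -/
theorem log_version : ∃ α₀ : ℝ, 0 < α₀ ∧ ∀ α : ℝ, 0 < α → α ≤ α₀ → ∀ K : ℕ, 1 ≤ K →
    Real.log (2 * K) ^ 8 ≤ Real.log (1 / α) → ∃ N₀ : ℕ, ∀ N : ℕ, N₀ ≤ N →
    ∃ A : Finset (ZMod N), α * N ≤ (A.card : ℝ) ∧ (A.card : ℝ) ≤ 2 * α * N ∧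
      BohrBound K A (Real.log (1 / α) * Real.log (Real.log (1 / α)) / (120 * Real.log (2 * K))) ∧
      ProgBound K A (Real.exp (Real.log (1 / α) ^ (1 / 4 : ℝ)))
        (Real.exp (-(Real.log (1 / α) * Real.log (Real.log (1 / α)) / (40 * Real.log (2 * K)))) * N) := by
  obtain ⟨X, hX⟩ : ∃ X : ℝ, X = 2 ^ 33 := ⟨_, rfl⟩
  refine ⟨Real.exp (-(X ^ 8)), Real.exp_pos _, fun α hα hα0 K hK hKℓ => ?_⟩
  obtain ⟨ℓ, hℓd⟩ : ∃ ℓ : ℝ, ℓ = Real.log (1 / α) := ⟨_, rfl⟩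
  rw [← hℓd] at hKℓ ⊢
  have hℓX : X ^ 8 ≤ ℓ := by
    rw [hℓd, one_div, Real.log_inv]
    have := Real.log_le_log hα hα0
    rw [Real.log_exp] at this
    linarith
  have hX0 : (0 : ℝ) < X := by rw [hX]; positivity
  have hℓpos : 0 < ℓ := lt_of_lt_of_le (by positivity) hℓX
  -- the eighth root
  obtain ⟨x, hx⟩ : ∃ x : ℝ, x = ℓ ^ (1 / 8 : ℝ) := ⟨_, rfl⟩
  have hx0 : 0 < x := by rw [hx]; exact Real.rpow_pos_of_pos hℓpos _
  have hx8 : x ^ 8 = ℓ := by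
    rw [hx, ← Real.rpow_natCast, ← Real.rpow_mul hℓpos.le]
    norm_num
  have hxX : X ≤ x := by
    rw [← hx8] at hℓX
    exact (pow_le_pow_iff_left₀ hX0.le hx0.le (by norm_num)).1 hℓX
  have hxbig : (2 : ℝ) ^ 33 ≤ x := by rw [← hX]; exact hxX
  have hKr : (1 : ℝ) ≤ K := by exact_mod_cast hK
  obtain ⟨lam, hlam⟩ : ∃ lam : ℝ, lam = Real.log (2 * K) := ⟨_, rfl⟩
  have hlog2 : 0.6931471803 < Real.log 2 := Real.log_two_gt_d9
  have hlog2' : Real.log 2 < 0.6931471808 := Real.log_two_lt_d9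
  have hlam0 : Real.log 2 ≤ lam := by
    rw [hlam]
    exact Real.log_le_log (by norm_num) (by linarith)
  have hlampos : 0 < lam := by linarith
  have hlamx : lam ≤ x := by
    rw [← hlam, ← hx8] at hKℓ
    exact (pow_le_pow_iff_left₀ hlampos.le hx0.le (by norm_num)).1 hKℓ
  obtain ⟨R, hR⟩ : ∃ R : ℕ, R = ⌊x ^ 2⌋₊ := ⟨_, rfl⟩
  have hR1 : (R : ℝ) ≤ x ^ 2 := by rw [hR]; exact Nat.floor_le (by positivity)
  have hR2 : x ^ 2 < R + 1 := by rw [hR]; exact Nat.lt_floor_add_one _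
  have hR3 : x ^ 2 / 2 ≤ R := by nlinarith
  have hRr : (2 : ℝ) ≤ R := by nlinarith
  have hR4 : 2 ≤ R := by exact_mod_cast hRr
  have hlogx0 : 5 / 2 * Real.log 2 ≤ Real.log x := by
    have h1 := Real.log_le_log (by norm_num) hxbig
    rw [Real.log_pow] at h1
    push_cast at h1
    linarith
  have hlogx1 : Real.log x ≤ x := (Real.log_le_sub_one_of_pos hx0).trans (by linarith)
  have hlogR1 : Real.log R ≤ 2 * Real.log x := by
    have := Real.log_le_log (by linarith) hR1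
    rwa [Real.log_pow, Nat.cast_ofNat] at this
  have hlogR2 : 8 / 5 * Real.log x ≤ Real.log R := by
    have h1 := Real.log_le_log (by positivity) hR3
    rw [Real.log_div (by positivity) (by norm_num), Real.log_pow] at h1
    push_cast at h1
    linarith
  have hlogℓ : Real.log ℓ = 8 * Real.log x := by
    rw [← hx8, Real.log_pow]; norm_num
  have hcond : 2 ^ 31 * (R : ℝ) ^ 2 * Real.log (2 * K) * Real.log (2 * K * R) ≤ Real.log (1 / α) := by
    rw [← hℓd, ← hlam, Real.log_mul (by positivity) (by positivity), ← hlam, ← hx8]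
    have h1 : (R : ℝ) ^ 2 ≤ x ^ 4 := by
      calc (R : ℝ) ^ 2 ≤ (x ^ 2) ^ 2 := pow_le_pow_left₀ (by positivity) hR1 2
        _ = x ^ 4 := by ring
    have h2 : lam + Real.log R ≤ 3 * x := by linarith
    have h3 : 0 ≤ lam + Real.log R := by
      have := Real.log_nonneg (show (1 : ℝ) ≤ R by linarith)
      linarith
    calc 2 ^ 31 * (R : ℝ) ^ 2 * lam * (lam + Real.log R) ≤ 2 ^ 31 * x ^ 4 * x * (3 * x) := by gcongr
      _ = x ^ 6 * (2 ^ 31 * 3) := by ring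
      _ ≤ x ^ 6 * x ^ 2 := by
          apply mul_le_mul_of_nonneg_left _ (by positivity)
          nlinarith
      _ = x ^ 8 := by ring
  obtain ⟨N₀, hN₀⟩ := general K R hK hR4 α hα hcond
  rw [← hℓd, ← hlam] at hN₀
  refine ⟨N₀, fun N hN => ?_⟩
  obtain ⟨A, hA1, hA2, hA3, hA4⟩ := hN₀ N hN
  rw [← hlam]
  refine ⟨A, hA1, hA2, fun Γ ε hε hε2 hsub => ?_, fun r H v L hr hsub => ?_⟩
  · refine le_trans ?_ (hA3 Γ ε hε hε2 hsub)
    rw [hlogℓ, div_le_div_iff₀ (by positivity) (by positivity)]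
    have h1 : ℓ * (8 * Real.log x) * 24 ≤ ℓ * Real.log R * 120 := by
      have : ℓ * (8 / 5 * Real.log x) ≤ ℓ * Real.log R := mul_le_mul_of_nonneg_left hlogR2 hℓpos.le
      linarith
    nlinarith
  · have h1 := hA4 r H v L (by
      refine hr.trans (Real.exp_le_exp.2 ?_)
      have h2 : ℓ ^ (1 / 4 : ℝ) = x ^ 2 := by
        rw [hx, ← Real.rpow_natCast, ← Real.rpow_mul hℓpos.le]
        norm_num
      rw [h2, le_div_iff₀ (by positivity), ← hx8]
      have h3 : (R : ℝ) ^ 2 ≤ x ^ 4 := by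
        calc (R : ℝ) ^ 2 ≤ (x ^ 2) ^ 2 := pow_le_pow_left₀ (by positivity) hR1 2
          _ = x ^ 4 := by ring
      calc x ^ 2 * (2 ^ 31 * (R : ℝ) ^ 2 * lam) ≤ x ^ 2 * (2 ^ 31 * x ^ 4 * x) := by gcongr
        _ = x ^ 7 * 2 ^ 31 := by ring
        _ ≤ x ^ 7 * x := by
            apply mul_le_mul_of_nonneg_left _ (by positivity)
            linarith
        _ = x ^ 8 := by ring) hsub
    refine h1.trans (mul_le_mul_of_nonneg_right (Real.exp_le_exp.2 (neg_le_neg ?_)) (Nat.cast_nonneg _))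
    rw [hlogℓ, div_le_div_iff₀ (by positivity) (by positivity)]
    have h1 : ℓ * (8 * Real.log x) * 8 ≤ ℓ * Real.log R * 40 := by
      have : ℓ * (8 / 5 * Real.log x) ≤ ℓ * Real.log R := mul_le_mul_of_nonneg_left hlogR2 hℓpos.le
      linarith
    nlinarith

/-- constant `R`: the rank is a power of `1/α` -/
theorem exp_version (K : ℕ) (hK : 1 ≤ K) (B : ℝ) : ∃ c α₀ : ℝ, 0 < c ∧ 0 < α₀ ∧
    ∀ α : ℝ, 0 < α → α ≤ α₀ → ∃ N₀ : ℕ, ∀ N : ℕ, N₀ ≤ N →
    ∃ A : Finset (ZMod N), α * N ≤ (A.card : ℝ) ∧ (A.card : ℝ) ≤ 2 * α * N ∧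
      ∀ (r : ℕ) (H : AddSubgroup (ZMod N)) (v : Fin r → ZMod N) (L : Fin r → ℕ),
        cosetProg H v L ⊆ kD K A → α ^ B * N ≤ ((cosetProg H v L).ncard : ℝ) → α ^ (-c) < (r : ℝ) := by
  have hKr : (1 : ℝ) ≤ K := by exact_mod_cast hK
  obtain ⟨lam, hlam⟩ : ∃ lam : ℝ, lam = Real.log (2 * K) := ⟨_, rfl⟩
  have hlog2 : 0 < Real.log 2 := Real.log_pos (by norm_num)
  have hlam0 : Real.log 2 ≤ lam := by
    rw [hlam]
    exact Real.log_le_log (by norm_num) (by linarith)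
  have hlampos : 0 < lam := by linarith
  obtain ⟨R, hR⟩ : ∃ R : ℕ, R = ⌈Real.exp (8 * B * lam)⌉₊ + 2 := ⟨_, rfl⟩
  have hR2 : 2 ≤ R := by omega
  have hRr : Real.exp (8 * B * lam) < R := by
    rw [hR]
    push_cast
    have := Nat.le_ceil (Real.exp (8 * B * lam))
    linarith
  have hRpos : (0 : ℝ) < R := (Real.exp_pos _).trans hRr
  have hlogR : 8 * B * lam < Real.log R := by
    have := Real.log_lt_log (Real.exp_pos _) hRr
    rwa [Real.log_exp] at this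
  obtain ⟨Y, hY⟩ : ∃ Y : ℝ, Y = 2 ^ 31 * (R : ℝ) ^ 2 * Real.log (2 * K) * Real.log (2 * K * R) := ⟨_, rfl⟩
  refine ⟨1 / (2 ^ 31 * R ^ 2 * lam), Real.exp (-(Y + 1)), by positivity, Real.exp_pos _, ?_⟩
  intro α hα hα0
  obtain ⟨ℓ, hℓd⟩ : ∃ ℓ : ℝ, ℓ = Real.log (1 / α) := ⟨_, rfl⟩
  have hℓY : Y + 1 ≤ ℓ := by
    rw [hℓd, one_div, Real.log_inv]
    have := Real.log_le_log hα hα0
    rw [Real.log_exp] at this
    linarith
  have hR1 : (1 : ℝ) ≤ R := by exact_mod_cast (by omega : 1 ≤ R)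
  have hY0 : 0 ≤ Y := by
    have h1 : 0 ≤ Real.log (2 * K * R) := by
      apply Real.log_nonneg
      nlinarith
    rw [hY, ← hlam]
    positivity
  have hℓpos : 0 < ℓ := by linarith
  have hαexp : α = Real.exp (-ℓ) := by
    rw [hℓd, one_div, Real.log_inv, neg_neg, Real.exp_log hα]
  obtain ⟨N₁, hN₁⟩ := general K R hK hR2 α hα (by rw [← hY, ← hℓd]; linarith)
  rw [← hℓd, ← hlam] at hN₁
  refine ⟨max N₁ 1, fun N hN => ?_⟩
  have hNpos : (0 : ℝ) < N := by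
    have : 1 ≤ N := (le_max_right _ _).trans hN
    exact_mod_cast this
  obtain ⟨A, hA1, hA2, -, hA4⟩ := hN₁ N ((le_max_left _ _).trans hN)
  refine ⟨A, hA1, hA2, fun r H v L hsub hbig => ?_⟩
  by_contra hcon
  push Not at hcon
  have h1 := hA4 r H v L (by
    refine hcon.trans (le_of_eq ?_)
    rw [hαexp, ← Real.exp_mul]
    congr 1
    ring) hsub
  have h2 : α ^ B = Real.exp (-(B * ℓ)) := by
    rw [hαexp, ← Real.exp_mul]
    congr 1
    ring
  have h3 : Real.exp (-(ℓ * Real.log R / (8 * lam))) < Real.exp (-(B * ℓ)) := by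
    apply Real.exp_lt_exp.2
    rw [neg_lt_neg_iff, lt_div_iff₀ (by positivity)]
    nlinarith
  rw [h2] at hbig
  have h4 := mul_lt_mul_of_pos_right h3 hNpos
  linarith

end Pool.Agent.J4.H30.KB
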