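import Pool.Agent.Y940.BogK.Core

/-!
# A random convex body of digits avoiding an arbitrary family of dense sets

Adapted from `Pool.Agent.Y940.BogK.Core`, where the family consists of the rational Bohr sets; the dimension `d` and the
parameter `t` are independent here.
-/

set_option autoImplicit false

namespace Pool.Agent.J4.H30.KB

open Finset Pool.Agent.H842R3.Bogo Pool.Agent.Y940.BogK

/-- The digit vectors in the box of side `2 K H` whose value lies in `F`. -/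
noncomputable def SF (K d H : ℕ) (F : Finset ℤ) : Finset (Fin d → ℤ) :=
  by classical exact (box d (2 * K * H)).filter fun z => val (4 * K * H + 1) z ∈ F

lemma mem_SF {K d H : ℕ} {F : Finset ℤ} {z : Fin d → ℤ} :
    z ∈ SF K d H F ↔ z ∈ box d (2 * K * H) ∧ val (4 * K * H + 1) z ∈ F := by
  classical
  unfold SF
  rw [Finset.mem_filter]

/-- The sign vectors not detecting any element of `SF`. -/
noncomputable def UF (K d H T : ℕ) (F : Finset ℤ) : Finset (Finset (Fin d)) :=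
  by classical exact univ.filter fun U => ∀ z ∈ SF K d H F, |pair U z| ≤ 2 * K * (T : ℤ)

lemma mem_UF {K d H T : ℕ} {F : Finset ℤ} {U : Finset (Fin d)} :
    U ∈ UF K d H T F ↔ ∀ z ∈ SF K d H F, |pair U z| ≤ 2 * K * (T : ℤ) := by
  classical
  unfold UF
  rw [Finset.mem_filter]
  simp

theorem family_core {kk d H T J : ℕ} (hkk : 1 ≤ kk) {l x : ℝ} (hl : 0 ≤ l)
    (hK : J * (2 * ((2 * H + 1) ^ d * Real.exp (d * (l ^ 2 * H ^ 2 / 2) - l * T)))
      ≤ ((2 * H + 1) ^ d : ℝ) / 2)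
    (hx0 : 0 < x) (hx1 : x < 1) (𝓕 : Finset (Finset ℤ)) (h𝓕 : 𝓕.card < 2 ^ J) :
    ∃ A : Finset ℤ, A ⊆ Finset.Icc 1 (((4 * kk * H + 1) ^ d : ℕ) : ℤ) ∧ (2 * H + 1) ^ d ≤ 2 * A.card ∧
      A.card ≤ (2 * H + 1) ^ d ∧
      ∀ F ∈ 𝓕, (F : Set ℤ) ⊆ kDiff kk A → ∃ k : ℕ, d ≤ 2 * k ∧ k ≤ d ∧
        (F.card : ℝ) * x ^ (4 * kk * T) ≤ (2 / (1 - x)) ^ k * (4 * kk * H + 1 : ℝ) ^ (d - k) := by
  classical
  -- the family of good indices
  let s : Finset (Finset ℤ) := 𝓕.filter fun F => 2 * (UF kk d H T F).card ≤ 2 ^ d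
  have hscard : s.card < 2 ^ J := (Finset.card_filter_le _ _).trans_lt h𝓕
  obtain ⟨U, hU⟩ := exists_tuple (J := J) s (fun F => UF kk d H T F)
    (fun κ hκ => (Finset.mem_filter.1 hκ).2) hscard
  -- the convex body
  let K : Finset (Fin d → ℤ) := (box d H).filter fun y => ∀ j, |pair (U j) y| ≤ (T : ℤ)
  have hMpos : (0 : ℤ) < 4 * (kk : ℤ) * (H : ℤ) + 1 := by positivity
  have hkk' : (1 : ℤ) ≤ kk := by exact_mod_cast hkk
  have hkH : (H : ℤ) ≤ kk * H := by nlinarith [Int.natCast_nonneg H]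
  have hKcard : (2 * H + 1) ^ d ≤ 2 * K.card := by
    have h1 : box d H ⊆ K ∪ (univ : Finset (Fin J)).biUnion fun j =>
        (box d H).filter fun y => (T : ℝ) < |(pair (U j) y : ℝ)| := by
      intro y hy
      by_cases h : ∀ j, |pair (U j) y| ≤ (T : ℤ)
      · exact Finset.mem_union_left _ (Finset.mem_filter.2 ⟨hy, h⟩)
      · push Not at h
        obtain ⟨j, hj⟩ := h
        refine Finset.mem_union_right _ (Finset.mem_biUnion.2 ⟨j, Finset.mem_univ _,
          Finset.mem_filter.2 ⟨hy, ?_⟩⟩)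
        have : ((T : ℤ) : ℝ) < ((|pair (U j) y| : ℤ) : ℝ) := by exact_mod_cast hj
        simpa using this
    have h2 := (Finset.card_le_card h1).trans (Finset.card_union_le _ _)
    rw [card_box] at h2
    have h3 : (((univ : Finset (Fin J)).biUnion fun j =>
        (box d H).filter fun y => (T : ℝ) < |(pair (U j) y : ℝ)|).card : ℝ)
        ≤ ((2 * H + 1) ^ d : ℝ) / 2 := by
      refine le_trans ?_ hK
      have h4 : (((univ : Finset (Fin J)).biUnion fun j =>
        (box d H).filter fun y => (T : ℝ) < |(pair (U j) y : ℝ)|).card : ℝ)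
        ≤ ∑ j : Fin J, (((box d H).filter fun y => (T : ℝ) < |(pair (U j) y : ℝ)|).card : ℝ) := by
        exact_mod_cast Finset.card_biUnion_le
      refine h4.trans ?_
      calc ∑ j : Fin J, (((box d H).filter fun y => (T : ℝ) < |(pair (U j) y : ℝ)|).card : ℝ)
          ≤ ∑ _j : Fin J, (2 * ((2 * H + 1) ^ d * Real.exp (d * (l ^ 2 * H ^ 2 / 2) - l * T))) :=
            Finset.sum_le_sum fun j _ => card_large_pair_le H (U j) l T hl
        _ = J * (2 * ((2 * H + 1) ^ d * Real.exp (d * (l ^ 2 * H ^ 2 / 2) - l * T))) := by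
            rw [Finset.sum_const, Finset.card_univ, Fintype.card_fin, nsmul_eq_mul]
    have h5 : (((2 * H + 1) ^ d : ℕ) : ℝ) ≤ K.card + (((univ : Finset (Fin J)).biUnion fun j =>
        (box d H).filter fun y => (T : ℝ) < |(pair (U j) y : ℝ)|).card : ℝ) := by
      exact_mod_cast h2
    have h6 : (((2 * H + 1) ^ d : ℕ) : ℝ) ≤ 2 * K.card := by
      push_cast at h5 ⊢
      linarith
    exact_mod_cast h6
  have hKbox : ∀ y ∈ K, ∀ i, |y i| ≤ (H : ℤ) := fun y hy =>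
    mem_box.1 (Finset.mem_filter.1 hy).1
  have hinj : ∀ z z' : Fin d → ℤ, z ∈ box d (2 * kk * H) → z' ∈ box d (2 * kk * H) →
      val (4 * kk * H + 1) z = val (4 * kk * H + 1) z' → z = z' := by
    intro z z' hz hz' h
    rw [mem_box] at hz hz'
    exact val_inj (4 * kk * H + 1) (2 * kk * H : ℕ) (by push_cast; linarith) hMpos d z z' hz hz' h
  let c0 : ℤ := 1 + val (4 * kk * H + 1) (fun _ : Fin d => (H : ℤ))
  let A : Finset ℤ := K.image fun y => c0 + val (4 * kk * H + 1) y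
  have hAcard : A.card = K.card := by
    refine Finset.card_image_of_injOn ?_
    intro y hy y' hy' h
    have h1 : val (4 * kk * H + 1) y = val (4 * kk * H + 1) y' := by
      simpa using h
    refine hinj y y' ?_ ?_ h1
    · rw [mem_box]; intro i
      have := hKbox y hy i
      push_cast
      nlinarith [Int.natCast_nonneg H]
    · rw [mem_box]; intro i
      have := hKbox y' hy' i
      push_cast
      nlinarith [Int.natCast_nonneg H]
  refine ⟨A, ?_, ?_, ?_, ?_⟩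
  · intro a ha
    rw [Finset.mem_image] at ha
    obtain ⟨y, hy, rfl⟩ := ha
    have h1 : c0 + val (4 * kk * H + 1) y = 1 + val (4 * kk * H + 1) ((fun _ : Fin d => (H : ℤ)) + y) := by
      rw [val_add]
      simp only [c0]
      ring
    have h2 := val_range (4 * kk * H + 1) hMpos d ((fun _ : Fin d => (H : ℤ)) + y) (by
      intro i
      have := hKbox y hy i
      rw [abs_le] at this
      simp only [Pi.add_apply]
      constructor <;> nlinarith [Int.natCast_nonneg H])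
    rw [h1, Finset.mem_Icc]
    push_cast
    constructor
    · linarith [h2.1]
    · linarith [h2.2]
  · rw [hAcard]; exact hKcard
  · rw [hAcard, ← card_box]
    exact Finset.card_le_card (Finset.filter_subset _ _)
  · intro F hF hsub
    -- differences
    have hdiff : ∀ n ∈ kDiff kk A, ∃ z ∈ box d (2 * kk * H), val (4 * kk * H + 1) z = n ∧
        ∀ j, |pair (U j) z| ≤ 2 * kk * (T : ℤ) := by
      rintro n ⟨a, b, ha, hb, rfl⟩
      have ha' : ∀ i, ∃ y ∈ K, c0 + val (4 * kk * H + 1) y = a i := fun i =>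
        Finset.mem_image.1 (ha i)
      have hb' : ∀ i, ∃ y ∈ K, c0 + val (4 * kk * H + 1) y = b i := fun i =>
        Finset.mem_image.1 (hb i)
      choose y hyK hy using ha'
      choose w hwK hw using hb'
      refine ⟨∑ i, y i - ∑ i, w i, ?_, ?_, ?_⟩
      · rw [mem_box]
        intro i
        have e1 : |∑ j, y j i| ≤ kk * (H : ℤ) := by
          calc |∑ j, y j i| ≤ ∑ j, |y j i| := Finset.abs_sum_le_sum_abs _ _
            _ ≤ ∑ _j : Fin kk, (H : ℤ) := Finset.sum_le_sum fun j _ => hKbox _ (hyK j) i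
            _ = kk * H := by simp
        have e2 : |∑ j, w j i| ≤ kk * (H : ℤ) := by
          calc |∑ j, w j i| ≤ ∑ j, |w j i| := Finset.abs_sum_le_sum_abs _ _
            _ ≤ ∑ _j : Fin kk, (H : ℤ) := Finset.sum_le_sum fun j _ => hKbox _ (hwK j) i
            _ = kk * H := by simp
        have e3 : (∑ j, y j - ∑ j, w j) i = ∑ j, y j i - ∑ j, w j i := by
          simp [Finset.sum_apply]
        rw [e3]
        rw [abs_le] at e1 e2 ⊢
        push_cast
        constructor <;> linarith [e1.1, e1.2, e2.1, e2.2]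
      · rw [val_sub, val_sum, val_sum]
        have e1 : ∑ i, a i = kk * c0 + ∑ i, val (4 * kk * H + 1) (y i) := by
          rw [← Finset.sum_congr rfl (fun i _ => hy i), Finset.sum_add_distrib]
          simp
        have e2 : ∑ i, b i = kk * c0 + ∑ i, val (4 * kk * H + 1) (w i) := by
          rw [← Finset.sum_congr rfl (fun i _ => hw i), Finset.sum_add_distrib]
          simp
        rw [e1, e2]
        ring
      · intro j
        rw [pair_sub, pair_sum, pair_sum]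
        have e1 : |∑ i, pair (U j) (y i)| ≤ kk * (T : ℤ) := by
          calc |∑ i, pair (U j) (y i)| ≤ ∑ i, |pair (U j) (y i)| :=
                Finset.abs_sum_le_sum_abs _ _
            _ ≤ ∑ _i : Fin kk, (T : ℤ) :=
                Finset.sum_le_sum fun i _ => (Finset.mem_filter.1 (hyK i)).2 j
            _ = kk * T := by simp
        have e2 : |∑ i, pair (U j) (w i)| ≤ kk * (T : ℤ) := by
          calc |∑ i, pair (U j) (w i)| ≤ ∑ i, |pair (U j) (w i)| :=
                Finset.abs_sum_le_sum_abs _ _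
            _ ≤ ∑ _i : Fin kk, (T : ℤ) :=
                Finset.sum_le_sum fun i _ => (Finset.mem_filter.1 (hwK i)).2 j
            _ = kk * T := by simp
        rw [abs_le] at e1 e2 ⊢
        constructor <;> linarith [e1.1, e1.2, e2.1, e2.2]
    have hFS : F.card ≤ (SF kk d H F).card := by
      have h1 : F ⊆ (SF kk d H F).image (val (4 * kk * H + 1)) := by
        intro n hn
        obtain ⟨z, hz, hzn, -⟩ := hdiff n (hsub hn)
        rw [Finset.mem_image]
        refine ⟨z, ?_, hzn⟩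
        rw [mem_SF, hzn]
        exact ⟨hz, hn⟩
      exact (Finset.card_le_card h1).trans Finset.card_image_le
    -- every element of `SF` is a difference
    have hSall : ∀ z ∈ SF kk d H F, ∀ j, |pair (U j) z| ≤ 2 * kk * (T : ℤ) := by
      intro z hz
      rw [mem_SF] at hz
      obtain ⟨z', hz', hval, hpair⟩ := hdiff _ (hsub hz.2)
      have := hinj z' z hz' hz.1 hval
      rw [← this]
      exact hpair
    have hmem : ∀ j, U j ∈ UF kk d H T F := by
      intro j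
      rw [mem_UF]
      exact fun z hz => hSall z hz j
    -- the index is not good
    have hbad : F ∉ s := by
      intro hgood
      obtain ⟨j, hj⟩ := hU _ hgood
      exact hj (hmem j)
    have hbad' : 2 ^ d < 2 * (UF kk d H T F).card := by
      by_contra h
      exact hbad (Finset.mem_filter.2 ⟨hF, not_lt.1 h⟩)
    obtain ⟨I, hI, hsh⟩ := exists_shatters _ hbad'
    have h1 : ∀ z ∈ SF kk d H F, ∀ z' ∈ SF kk d H F,
        (∀ i, i ∉ I → z i = z' i) → ∑ i ∈ I, |z i - z' i| ≤ ((4 * kk * T : ℕ) : ℤ) := by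
      intro z hz z' hz' heq
      have := fiber_l1 hsh (S := SF kk d H F) (W := 2 * kk * (T : ℤ))
        (fun U hU z hz => (mem_UF.1 hU) z hz) hz hz' heq
      push_cast
      linarith
    have h2 := card_mul_pow_le (L := 2 * kk * H) (I := I) (S := SF kk d H F)
      (W := 4 * kk * T)
      (fun z hz => (mem_SF.1 hz).1) h1 hx0 hx1
    have hIcard : I.card ≤ d := by
      have := Finset.card_le_univ I
      simpa using this
    refine ⟨I.card, hI, hIcard, ?_⟩
    have h3 : (F.card : ℝ) * x ^ (4 * kk * T) ≤ ((SF kk d H F).card : ℝ) * x ^ (4 * kk * T) := by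
      apply mul_le_mul_of_nonneg_right _ (by positivity)
      exact_mod_cast hFS
    refine h3.trans (h2.trans (le_of_eq ?_))
    congr 2
    push_cast
    ring

lemma quarter_le' {kk t d : ℕ} (hk : 1 ≤ kk) (ht : 1 ≤ t) :
    (1 / 4 : ℝ) ^ d ≤ (1 - 1 / (4 * kk * (t : ℝ))) ^ (4 * kk * (t * d)) := by
  have ht0 : (1 : ℝ) ≤ t := by exact_mod_cast ht
  have hk0 : (1 : ℝ) ≤ kk := by exact_mod_cast hk
  have h0 : (1 : ℝ) ≤ 4 * kk * t := by nlinarith
  have h1 : (1 / 2 : ℝ) ≤ (1 - 1 / (4 * kk * (t : ℝ))) ^ (2 * kk * t) := by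
    have h2 := one_add_mul_le_pow (a := -(1 / (4 * kk * (t : ℝ)))) (by
      have : 1 / (4 * kk * (t : ℝ)) ≤ 1 := by
        rw [div_le_one (by linarith)]; linarith
      linarith) (2 * kk * t)
    have h3 : (1 : ℝ) + ((2 * kk * t : ℕ) : ℝ) * -(1 / (4 * kk * (t : ℝ))) = 1 / 2 := by
      push_cast
      field_simp
      ring
    rw [h3, ← sub_eq_add_neg] at h2
    exact h2
  have h4 : (1 - 1 / (4 * kk * (t : ℝ))) ^ (4 * kk * (t * d))
      = (((1 - 1 / (4 * kk * (t : ℝ))) ^ (2 * kk * t)) ^ 2) ^ d := by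
    rw [← pow_mul, ← pow_mul]
    congr 1
    ring
  rw [h4]
  refine pow_le_pow_left₀ (by norm_num) ?_ _
  calc (1 / 4 : ℝ) = (1 / 2) ^ 2 := by norm_num
    _ ≤ _ := pow_le_pow_left₀ (by norm_num) h1 2

/-- **A set whose iterated differences contain no member of a given family that is large.** -/
theorem family (kk t d J : ℕ) (hkk : 1 ≤ kk) (ht : 2 ≤ t) (hJ : 4 * (J : ℝ) ≤ Real.exp (d / (2 * (t : ℝ) ^ 2)))
    (𝓕 : Finset (Finset ℤ)) (h𝓕 : 𝓕.card < 2 ^ J) :
    ∃ A : Finset ℤ, A ⊆ Finset.Icc 1 (((4 * kk * t ^ 2 + 1) ^ d : ℕ) : ℤ) ∧ (2 * t ^ 2 + 1) ^ d ≤ 2 * A.card ∧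
      A.card ≤ (2 * t ^ 2 + 1) ^ d ∧
      ∀ F ∈ 𝓕, (F : Set ℤ) ⊆ kDiff kk A →
        F.card ^ 2 * t ^ d ≤ 32 ^ d * ((4 * kk * t ^ 2 + 1) ^ d) ^ 2 := by
  have ht0 : (2 : ℝ) ≤ t := by exact_mod_cast ht
  have htpos : (0 : ℝ) < t := by linarith
  have hk0 : (1 : ℝ) ≤ kk := by exact_mod_cast hkk
  have hx1 : 1 - 1 / (4 * kk * (t : ℝ)) < 1 := by
    have : 0 < 1 / (4 * kk * (t : ℝ)) := by positivity
    linarith
  have hx0 : 0 < 1 - 1 / (4 * kk * (t : ℝ)) := by
    have : 1 / (4 * kk * (t : ℝ)) < 1 := by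
      rw [div_lt_one (by positivity)]; nlinarith
    linarith
  have hparam : (J : ℝ) * (2 * ((2 * ((t ^ 2 : ℕ) : ℝ) + 1) ^ d *
      Real.exp ((d : ℝ) * ((1 / (t : ℝ) ^ 3) ^ 2 * ((t ^ 2 : ℕ) : ℝ) ^ 2 / 2) -
        (1 / (t : ℝ) ^ 3) * ((t * d : ℕ) : ℝ)))) ≤ ((2 * ((t ^ 2 : ℕ) : ℝ) + 1) ^ d : ℝ) / 2 := by
    have h1 : (d : ℝ) * ((1 / (t : ℝ) ^ 3) ^ 2 * ((t ^ 2 : ℕ) : ℝ) ^ 2 / 2) -
        (1 / (t : ℝ) ^ 3) * ((t * d : ℕ) : ℝ) = -(d / (2 * (t : ℝ) ^ 2)) := by
      push_cast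
      field_simp
      ring
    rw [h1, Real.exp_neg]
    have hE : 0 < Real.exp (d / (2 * (t : ℝ) ^ 2)) := Real.exp_pos _
    have hP : (0 : ℝ) < (2 * ((t ^ 2 : ℕ) : ℝ) + 1) ^ d := by positivity
    calc (J : ℝ) * (2 * ((2 * ((t ^ 2 : ℕ) : ℝ) + 1) ^ d * (Real.exp (d / (2 * (t : ℝ) ^ 2)))⁻¹))
        = (4 * (J : ℝ)) * ((2 * ((t ^ 2 : ℕ) : ℝ) + 1) ^ d / 2) * (Real.exp (d / (2 * (t : ℝ) ^ 2)))⁻¹ := by ring
      _ ≤ Real.exp (d / (2 * (t : ℝ) ^ 2)) * ((2 * ((t ^ 2 : ℕ) : ℝ) + 1) ^ d / 2) *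
          (Real.exp (d / (2 * (t : ℝ) ^ 2)))⁻¹ := by gcongr
      _ = _ := by field_simp
  obtain ⟨A, hA1, hA2, hA3, hA4⟩ := family_core (kk := kk) (d := d) (H := t ^ 2) (T := t * d) (J := J) hkk
    (l := 1 / (t : ℝ) ^ 3) (x := 1 - 1 / (4 * kk * (t : ℝ))) (by positivity) hparam hx0 hx1 𝓕 h𝓕
  refine ⟨A, hA1, hA2, hA3, fun F hF hsub => ?_⟩
  obtain ⟨k, hk, hkd, h1⟩ := hA4 F hF hsub
  have h3 : (2 : ℝ) / (1 - (1 - 1 / (4 * kk * (t : ℝ)))) = 8 * kk * t := by
    field_simp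
    ring
  rw [h3] at h1
  have h4 := quarter_le' (kk := kk) (t := t) (d := d) hkk (by omega)
  obtain ⟨M, hM⟩ : ∃ M : ℝ, M = 4 * kk * ((t ^ 2 : ℕ) : ℝ) + 1 := ⟨_, rfl⟩
  have hMpos : (0 : ℝ) < M := by rw [hM]; positivity
  rw [← hM] at h1
  have h5 : (F.card : ℝ) * (1 / 4) ^ d ≤ (8 * kk * (t : ℝ)) ^ k * M ^ (d - k) :=
    le_trans (mul_le_mul_of_nonneg_left h4 (Nat.cast_nonneg _)) h1
  have h6 : (8 * kk * (t : ℝ)) ^ k * (t / 2 : ℝ) ^ k ≤ M ^ k := by
    rw [← mul_pow]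
    refine pow_le_pow_left₀ (by positivity) ?_ k
    rw [hM]
    push_cast
    nlinarith
  have h7 : (F.card : ℝ) * (t / 2 : ℝ) ^ k ≤ 4 ^ d * M ^ d := by
    have e1 : (4 : ℝ) ^ d * (1 / 4) ^ d = 1 := by rw [← mul_pow]; norm_num
    have e2 : M ^ d = M ^ k * M ^ (d - k) := by rw [← pow_add]; congr 1; omega
    calc (F.card : ℝ) * (t / 2 : ℝ) ^ k = 4 ^ d * (((F.card : ℝ) * (1 / 4) ^ d) * (t / 2 : ℝ) ^ k) := by
          calc (F.card : ℝ) * (t / 2 : ℝ) ^ k = (4 ^ d * (1 / 4) ^ d) * ((F.card : ℝ) * (t / 2 : ℝ) ^ k) := by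
                rw [e1, one_mul]
            _ = _ := by ring
      _ ≤ 4 ^ d * (((8 * kk * (t : ℝ)) ^ k * M ^ (d - k)) * (t / 2 : ℝ) ^ k) := by gcongr
      _ = 4 ^ d * (((8 * kk * (t : ℝ)) ^ k * (t / 2 : ℝ) ^ k) * M ^ (d - k)) := by ring
      _ ≤ 4 ^ d * (M ^ k * M ^ (d - k)) := by gcongr
      _ = _ := by rw [← e2]
  have h8 : ((F.card : ℝ)) ^ 2 * (t / 2 : ℝ) ^ d ≤ (4 ^ d * M ^ d) ^ 2 := by
    calc ((F.card : ℝ)) ^ 2 * (t / 2 : ℝ) ^ d ≤ ((F.card : ℝ)) ^ 2 * (t / 2 : ℝ) ^ (2 * k) := by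
          apply mul_le_mul_of_nonneg_left _ (by positivity)
          exact pow_le_pow_right₀ (by linarith) hk
      _ = ((F.card : ℝ) * (t / 2 : ℝ) ^ k) ^ 2 := by rw [mul_pow, ← pow_mul]; congr 2; ring
      _ ≤ _ := pow_le_pow_left₀ (by positivity) h7 2
  have h9 : ((F.card : ℝ)) ^ 2 * (t : ℝ) ^ d ≤ 32 ^ d * (M ^ d) ^ 2 := by
    calc ((F.card : ℝ)) ^ 2 * (t : ℝ) ^ d = 2 ^ d * (((F.card : ℝ)) ^ 2 * (t / 2 : ℝ) ^ d) := by
          rw [div_pow]
          field_simp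
      _ ≤ 2 ^ d * (4 ^ d * M ^ d) ^ 2 := by gcongr
      _ = _ := by
          have : (32 : ℝ) ^ d = 2 ^ d * (4 ^ d) ^ 2 := by
            rw [← pow_mul, mul_comm d 2, pow_mul, ← mul_pow]
            norm_num
          rw [this]
          ring
  rw [hM] at h9
  exact_mod_cast h9

end Pool.Agent.J4.H30.KB
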