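import Pool.Agent.Y940.BogK.Core

/-!
# From the integers to `ℤ/N`
-/

set_option autoImplicit false

namespace Pool.Agent.J4.H30.KB

open Finset Pool.Agent.Y940.BogK

/-- `K B - K B` in `ℤ/N`. -/
def kD {N : ℕ} (K : ℕ) (B : Finset (ZMod N)) : Set (ZMod N) :=
  {x | ∃ a b : Fin K → ZMod N, (∀ i, a i ∈ B) ∧ (∀ i, b i ∈ B) ∧ x = ∑ i, a i - ∑ i, b i}

/-- the coset progression `H + {n₁ v₁ + … + n_r v_r : |n_i| ≤ L_i}` -/
def cosetProg {N r : ℕ} (H : AddSubgroup (ZMod N)) (v : Fin r → ZMod N) (L : Fin r → ℕ) : Set (ZMod N) :=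
  {x | ∃ h ∈ H, ∃ n : Fin r → ℤ, (∀ i, |n i| ≤ (L i : ℤ)) ∧ x = h + ∑ i, (n i : ZMod N) * v i}

/-- the image in `ℤ/N` of the dilated and fattened set -/
noncomputable def fat (D w N : ℕ) (A : Finset ℤ) : Finset (ZMod N) :=
  (A ×ˢ Finset.range w).image fun p => ((p.1 * (D : ℤ) + (p.2 : ℤ) : ℤ) : ZMod N)

lemma mem_fat {D w N : ℕ} {A : Finset ℤ} {x : ZMod N} :
    x ∈ fat D w N A ↔ ∃ a ∈ A, ∃ j : ℕ, j < w ∧ x = ((a * (D : ℤ) + j : ℤ) : ZMod N) := by
  unfold fat
  rw [Finset.mem_image]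
  constructor
  · rintro ⟨⟨a, j⟩, h, rfl⟩
    rw [Finset.mem_product, Finset.mem_range] at h
    exact ⟨a, h.1, j, h.2, rfl⟩
  · rintro ⟨a, ha, j, hj, rfl⟩
    exact ⟨(a, j), by rw [Finset.mem_product, Finset.mem_range]; exact ⟨ha, hj⟩, rfl⟩

/-- uniqueness of the representations -/
lemma uniq {Q D N : ℕ} {σ ε : ℤ} (hN : D * (Q + 1) ≤ N) (hσ : |σ| ≤ Q) (hε : |ε| < D)
    (h : ((σ * (D : ℤ) + ε : ℤ) : ZMod N) = 0) : σ = 0 ∧ ε = 0 := by
  rw [ZMod.intCast_zmod_eq_zero_iff_dvd] at h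
  have hDpos : (0 : ℤ) < D := lt_of_le_of_lt (abs_nonneg _) hε
  have h1 : |σ * (D : ℤ) + ε| < N := by
    calc |σ * (D : ℤ) + ε| ≤ |σ * (D : ℤ)| + |ε| := abs_add_le _ _
      _ = |σ| * D + |ε| := by rw [abs_mul, abs_of_pos hDpos]
      _ < Q * D + D := add_lt_add_of_le_of_lt (mul_le_mul_of_nonneg_right hσ hDpos.le) hε
      _ = ((D * (Q + 1) : ℕ) : ℤ) := by push_cast; ring
      _ ≤ N := by exact_mod_cast hN
  have h2 : σ * (D : ℤ) + ε = 0 := Int.eq_zero_of_abs_lt_dvd h h1
  have h3 : σ = 0 := by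
    by_contra hne
    have h4 : 1 ≤ |σ| := Int.one_le_abs hne
    have h5 : |ε| = |σ| * D := by
      have : ε = -(σ * D) := by linarith
      rw [this, abs_neg, abs_mul, abs_of_pos hDpos]
    nlinarith
  refine ⟨h3, ?_⟩
  rw [h3] at h2
  linarith

lemma kDiff_abs {K M : ℕ} {A : Finset ℤ} (hA : A ⊆ Finset.Icc 1 (M : ℤ)) {s : ℤ} (hs : s ∈ kDiff K A) :
    |s| ≤ K * M := by
  obtain ⟨a, b, ha, hb, rfl⟩ := hs
  have h1 : ∀ x ∈ A, 0 ≤ x ∧ x ≤ M := fun x hx => by
    have := Finset.mem_Icc.1 (hA hx)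
    exact ⟨by linarith [this.1], this.2⟩
  have e1 : ∑ i, a i ≤ K * M := by
    calc ∑ i, a i ≤ ∑ _i : Fin K, (M : ℤ) := Finset.sum_le_sum fun i _ => (h1 _ (ha i)).2
      _ = K * M := by simp
  have e2 : ∑ i, b i ≤ K * M := by
    calc ∑ i, b i ≤ ∑ _i : Fin K, (M : ℤ) := Finset.sum_le_sum fun i _ => (h1 _ (hb i)).2
      _ = K * M := by simp
  have e3 : 0 ≤ ∑ i, a i := Finset.sum_nonneg fun i _ => (h1 _ (ha i)).1
  have e4 : 0 ≤ ∑ i, b i := Finset.sum_nonneg fun i _ => (h1 _ (hb i)).1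
  rw [abs_le]
  constructor <;> linarith

/-- the representation of an element of `K A' - K A'` -/
lemma rep {K D w N : ℕ} {A : Finset ℤ} {x : ZMod N} (hx : x ∈ kD K (fat D w N A)) :
    ∃ s e : ℤ, s ∈ kDiff K A ∧ |e| ≤ K * w ∧ x = ((s * (D : ℤ) + e : ℤ) : ZMod N) := by
  obtain ⟨a, b, ha, hb, rfl⟩ := hx
  have ha' := fun i => mem_fat.1 (ha i)
  have hb' := fun i => mem_fat.1 (hb i)
  choose α hα j hj hx using ha'
  choose β hβ k hk hy using hb'
  refine ⟨∑ i, α i - ∑ i, β i, ∑ i, (j i : ℤ) - ∑ i, (k i : ℤ), ⟨α, β, hα, hβ, rfl⟩, ?_, ?_⟩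
  · have e1 : ∑ i, (j i : ℤ) ≤ K * w := by
      calc ∑ i, (j i : ℤ) ≤ ∑ _i : Fin K, (w : ℤ) :=
            Finset.sum_le_sum fun i _ => by exact_mod_cast (hj i).le
        _ = K * w := by simp
    have e2 : ∑ i, (k i : ℤ) ≤ K * w := by
      calc ∑ i, (k i : ℤ) ≤ ∑ _i : Fin K, (w : ℤ) :=
            Finset.sum_le_sum fun i _ => by exact_mod_cast (hk i).le
        _ = K * w := by simp
    have e3 : 0 ≤ ∑ i, (j i : ℤ) := Finset.sum_nonneg fun i _ => Int.natCast_nonneg _
    have e4 : 0 ≤ ∑ i, (k i : ℤ) := Finset.sum_nonneg fun i _ => Int.natCast_nonneg _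
    rw [abs_le]
    constructor <;> linarith
  · rw [Finset.sum_congr rfl fun i _ => hx i, Finset.sum_congr rfl fun i _ => hy i]
    push_cast
    rw [Finset.sum_add_distrib, Finset.sum_add_distrib, ← Finset.sum_mul, ← Finset.sum_mul]
    ring

/-- the number of elements of the fattened set -/
lemma card_fat {K M w N : ℕ} (hK : 1 ≤ K) {A : Finset ℤ} (hA : A ⊆ Finset.Icc 1 (M : ℤ))
    (hN : 4 * K * w * (3 * K * M + 1) ≤ N) : (fat (4 * K * w) w N A).card = A.card * w := by
  unfold fat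
  rw [Finset.card_image_of_injOn, Finset.card_product, Finset.card_range]
  rintro ⟨a, j⟩ h ⟨b, k⟩ h' he
  rw [Finset.mem_coe, Finset.mem_product, Finset.mem_range] at h h'
  simp only at he h h'
  have ha := Finset.mem_Icc.1 (hA h.1)
  have hb := Finset.mem_Icc.1 (hA h'.1)
  have hj : (j : ℤ) < w := by exact_mod_cast h.2
  have hk : (k : ℤ) < w := by exact_mod_cast h'.2
  have hj0 : (0 : ℤ) ≤ j := Int.natCast_nonneg _
  have hk0 : (0 : ℤ) ≤ k := Int.natCast_nonneg _
  have hK' : (1 : ℤ) ≤ K := by exact_mod_cast hK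
  have hM0 : (0 : ℤ) ≤ M := Int.natCast_nonneg _
  have h0 : (((a - b) * ((4 * K * w : ℕ) : ℤ) + ((j : ℤ) - k) : ℤ) : ZMod N) = 0 := by
    have h1 : (((a - b) * ((4 * K * w : ℕ) : ℤ) + ((j : ℤ) - k) : ℤ) : ZMod N) =
        ((a * ((4 * K * w : ℕ) : ℤ) + j : ℤ) : ZMod N) - ((b * ((4 * K * w : ℕ) : ℤ) + k : ℤ) : ZMod N) := by
      push_cast
      ring
    rw [h1, he, sub_self]
  obtain ⟨h1, h2⟩ := uniq (Q := 3 * K * M) (D := 4 * K * w) (N := N) hN (by
    rw [abs_le]
    push_cast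
    constructor <;> nlinarith) (by
    rw [abs_lt]
    push_cast
    constructor <;> nlinarith) h0
  have h3 : a = b := by linarith
  have h4 : j = k := by
    have : (j : ℤ) = k := by linarith
    exact_mod_cast this
  rw [h3, h4]

/-- additivity -/
lemma add_rep {K M w N : ℕ} (hK : 1 ≤ K) (hw : 1 ≤ w) (hN : 4 * K * w * (3 * K * M + 1) ≤ N)
    {x y : ZMod N} {s e s' e' s'' e'' : ℤ} (hs : |s| ≤ K * M) (hs' : |s'| ≤ K * M) (hs'' : |s''| ≤ K * M)
    (he : |e| ≤ K * w) (he' : |e'| ≤ K * w) (he'' : |e''| ≤ K * w)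
    (hx : x = ((s * ((4 * K * w : ℕ) : ℤ) + e : ℤ) : ZMod N))
    (hy : y = ((s' * ((4 * K * w : ℕ) : ℤ) + e' : ℤ) : ZMod N))
    (hxy : x + y = ((s'' * ((4 * K * w : ℕ) : ℤ) + e'' : ℤ) : ZMod N)) : s'' = s + s' ∧ e'' = e + e' := by
  have h0 : (((s + s' - s'') * ((4 * K * w : ℕ) : ℤ) + (e + e' - e'') : ℤ) : ZMod N) = 0 := by
    have h1 : (((s + s' - s'') * ((4 * K * w : ℕ) : ℤ) + (e + e' - e'') : ℤ) : ZMod N) =
        ((s * ((4 * K * w : ℕ) : ℤ) + e : ℤ) : ZMod N) + ((s' * ((4 * K * w : ℕ) : ℤ) + e' : ℤ) : ZMod N) -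
          ((s'' * ((4 * K * w : ℕ) : ℤ) + e'' : ℤ) : ZMod N) := by
      push_cast
      ring
    rw [h1, ← hx, ← hy, ← hxy, sub_self]
  rw [abs_le] at hs hs' hs'' he he' he''
  have hKw : (1 : ℤ) ≤ K * w := by
    have : 1 ≤ K * w := Nat.mul_pos hK hw
    exact_mod_cast this
  obtain ⟨h1, h2⟩ := uniq (Q := 3 * K * M) (D := 4 * K * w) (N := N) hN (by
    rw [abs_le]
    push_cast
    constructor <;> linarith) (by
    rw [abs_lt]
    push_cast
    constructor <;> linarith) h0
  exact ⟨by linarith, by linarith⟩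

/-- integer progressions -/
noncomputable def gap {r : ℕ} (s : Fin r → ℤ) (L : Fin r → ℕ) : Finset ℤ :=
  (Fintype.piFinset fun i => Finset.Icc (-(L i : ℤ)) (L i : ℤ)).image fun n => ∑ i, n i * s i

lemma mem_gap {r : ℕ} {s : Fin r → ℤ} {L : Fin r → ℕ} {z : ℤ} :
    z ∈ gap s L ↔ ∃ n : Fin r → ℤ, (∀ i, |n i| ≤ (L i : ℤ)) ∧ z = ∑ i, n i * s i := by
  unfold gap
  simp only [Finset.mem_image, Fintype.mem_piFinset, Finset.mem_Icc, abs_le]
  constructor
  · rintro ⟨n, h, rfl⟩
    exact ⟨n, h, rfl⟩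
  · rintro ⟨n, h, rfl⟩
    exact ⟨n, h, rfl⟩

/-- **Transfer of coset progressions.** -/
theorem transfer_prog {K M w N r : ℕ} (hK : 1 ≤ K) (hw : 1 ≤ w) (hM : 1 ≤ M)
    (hN : 4 * K * w * (3 * K * M + 1) ≤ N)
    {A : Finset ℤ} (hA : A ⊆ Finset.Icc 1 (M : ℤ)) (H : AddSubgroup (ZMod N)) (v : Fin r → ZMod N) (L : Fin r → ℕ)
    (hP : cosetProg H v L ⊆ kD K (fat (4 * K * w) w N A)) :
    ∃ (s : Fin r → ℤ) (L' : Fin r → ℕ), (∀ i, |s i| ≤ ((K * M : ℕ) : ℤ)) ∧ (∀ i, L' i ≤ K * M) ∧
      (gap s L' : Set ℤ) ⊆ kDiff K A ∧ (cosetProg H v L).ncard ≤ (2 * K * w + 1) * (gap s L').card := by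
  classical
  have hN0 : 0 < N := by
    have : 0 < 4 * K * w * (3 * K * M + 1) := by positivity
    omega
  have : NeZero N := ⟨hN0.ne'⟩
  have hP' : ∀ x, x ∈ cosetProg H v L → ∃ s e : ℤ, s ∈ kDiff K A ∧ |e| ≤ K * w ∧
      x = ((s * ((4 * K * w : ℕ) : ℤ) + e : ℤ) : ZMod N) := fun x hx => rep (hP hx)
  choose! S E hS hE hSE using hP'
  have hSb : ∀ x ∈ cosetProg H v L, |S x| ≤ K * M := fun x hx => kDiff_abs hA (hS x hx)
  -- additivity
  have hadd : ∀ x y, x ∈ cosetProg H v L → y ∈ cosetProg H v L → x + y ∈ cosetProg H v L →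
      S (x + y) = S x + S y ∧ E (x + y) = E x + E y := fun x y hx hy hxy =>
    add_rep hK hw hN (hSb x hx) (hSb y hy) (hSb _ hxy) (hE x hx) (hE y hy) (hE _ hxy) (hSE x hx) (hSE y hy)
      (hSE _ hxy)
  have hmem : ∀ h ∈ H, ∀ n : Fin r → ℤ, (∀ i, |n i| ≤ (L i : ℤ)) → h + ∑ i, (n i : ZMod N) * v i ∈ cosetProg H v L :=
    fun h hh n hn => ⟨h, hh, n, hn, rfl⟩
  have hH : ∀ h ∈ H, h ∈ cosetProg H v L := by
    intro h hh
    have := hmem h hh (fun _ => 0) (fun i => by simp)
    simpa using this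
  have h0P : (0 : ZMod N) ∈ cosetProg H v L := hH 0 H.zero_mem
  have hS0 : S 0 = 0 ∧ E 0 = 0 := by
    have := hadd 0 0 h0P h0P (by rw [add_zero]; exact h0P)
    rw [add_zero] at this
    exact ⟨by linarith [this.1], by linarith [this.2]⟩
  -- the subgroup is trivial
  have hHt : ∀ h ∈ H, h = 0 := by
    intro h hh
    have h1 : ∀ m : ℕ, S (m • h) = m * S h ∧ E (m • h) = m * E h := by
      intro m
      induction m with
      | zero => simp [hS0.1, hS0.2]
      | succ m ih =>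
        have h2 := hadd (m • h) h (hH _ (H.nsmul_mem hh m)) (hH _ hh)
          (hH _ (H.add_mem (H.nsmul_mem hh m) hh))
        rw [succ_nsmul]
        refine ⟨?_, ?_⟩
        · rw [h2.1, ih.1]; push_cast; ring
        · rw [h2.2, ih.2]; push_cast; ring
    have h2 := h1 N
    have h3 : N • h = 0 := by
      rw [nsmul_eq_mul, ZMod.natCast_self, zero_mul]
    rw [h3, hS0.1, hS0.2] at h2
    have hNz : (N : ℤ) ≠ 0 := by exact_mod_cast hN0.ne'
    have h4 : S h = 0 := (mul_eq_zero.1 h2.1.symm).resolve_left hNz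
    have h5 : E h = 0 := (mul_eq_zero.1 h2.2.symm).resolve_left hNz
    have h6 := hSE h (hH h hh)
    rw [h4, h5] at h6
    simpa using h6
  have hv : ∀ i, L i ≠ 0 → v i ∈ cosetProg H v L := by
    intro i hi
    have := hmem 0 H.zero_mem (fun j => if j = i then 1 else 0) (fun j => by
      by_cases h : j = i
      · subst h
        simp only [if_true, abs_one]
        have : 1 ≤ L j := Nat.one_le_iff_ne_zero.2 hi
        exact_mod_cast this
      · simp [h])
    simpa using this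
  obtain ⟨S', hS'⟩ : ∃ S' : Fin r → ℤ, S' = fun i => if L i = 0 then 0 else S (v i) := ⟨_, rfl⟩
  -- linearity
  have hlin : ∀ m : ℕ, ∀ n : Fin r → ℤ, (∀ i, |n i| ≤ (L i : ℤ)) → ∑ i, (n i).natAbs = m →
      S (∑ i, (n i : ZMod N) * v i) = ∑ i, n i * S' i := by
    intro m
    induction m using Nat.strong_induction_on with
    | _ m ih =>
      intro n hn hm
      by_cases hz : ∀ i, n i = 0
      · have e1 : ∑ i, (n i : ZMod N) * v i = 0 := Finset.sum_eq_zero fun i _ => by rw [hz i]; simp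
        have e2 : ∑ i, n i * S' i = 0 := Finset.sum_eq_zero fun i _ => by rw [hz i]; simp
        rw [e1, e2]
        exact hS0.1
      · push Not at hz
        obtain ⟨i, hi⟩ := hz
        have hLi : L i ≠ 0 := by
          intro h
          have := hn i
          rw [h] at this
          simp at this
          exact hi this
        have hS'i : S' i = S (v i) := by rw [hS']; simp [hLi]
        -- a general step
        have step : ∀ c : ℤ, (n i + c).natAbs < (n i).natAbs →
            (∀ j, |n j + if j = i then c else 0| ≤ (L j : ℤ)) ∧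
            S (∑ j, (n j : ZMod N) * v j + (c : ZMod N) * v i) = ∑ j, n j * S' j + c * S' i := by
          intro c hc
          have h1 : ∀ j, (n j + if j = i then c else 0).natAbs ≤ (n j).natAbs := by
            intro j
            by_cases h : j = i
            · subst h; simp; exact hc.le
            · simp [h]
          have h2 : ∀ j, |n j + if j = i then c else 0| ≤ (L j : ℤ) := by
            intro j
            have h3 := h1 j
            have h4 := hn j
            rw [Int.abs_eq_natAbs] at h4 ⊢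
            exact (Int.ofNat_le.2 h3).trans h4
          refine ⟨h2, ?_⟩
          have h3 := ih (∑ j, (n j + if j = i then c else 0).natAbs) (by
            rw [← hm]
            refine Finset.sum_lt_sum (fun j _ => h1 j) ⟨i, Finset.mem_univ _, ?_⟩
            simpa using hc) (fun j => n j + if j = i then c else 0) h2 rfl
          have e1 : ∑ j, ((n j + if j = i then c else 0 : ℤ) : ZMod N) * v j =
              ∑ j, (n j : ZMod N) * v j + (c : ZMod N) * v i := by
            push_cast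
            simp only [add_mul, Finset.sum_add_distrib]
            simp [ite_mul]
          have e2 : ∑ j, (n j + if j = i then c else 0) * S' j = ∑ j, n j * S' j + c * S' i := by
            simp only [add_mul, Finset.sum_add_distrib]
            simp [ite_mul]
          rw [e1, e2] at h3
          exact h3
        have hxP : ∑ j, (n j : ZMod N) * v j ∈ cosetProg H v L := by
          have := hmem 0 H.zero_mem n hn
          simpa using this
        have hcP : ∀ c : ℤ, (∀ j, |n j + if j = i then c else 0| ≤ (L j : ℤ)) →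
            ∑ j, (n j : ZMod N) * v j + (c : ZMod N) * v i ∈ cosetProg H v L := by
          intro c hc
          have h1 := hmem 0 H.zero_mem (fun j => n j + if j = i then c else 0) hc
          have e1 : ∑ j, ((n j + if j = i then c else 0 : ℤ) : ZMod N) * v j =
              ∑ j, (n j : ZMod N) * v j + (c : ZMod N) * v i := by
            push_cast
            simp only [add_mul, Finset.sum_add_distrib]
            simp [ite_mul]
          rw [e1, zero_add] at h1
          exact h1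
        rcases lt_or_gt_of_ne hi with h | h
        · -- negative
          obtain ⟨h1, h2⟩ := step 1 (by omega)
          have h3 := hadd _ _ hxP (hv i hLi) (by
            have := hcP 1 h1
            simpa using this)
          simp only [Int.cast_one, one_mul] at h2
          rw [h3.1, hS'i] at h2
          linarith
        · -- positive
          obtain ⟨h1, h2⟩ := step (-1) (by omega)
          have h4 := hcP (-1) h1
          have h3 := hadd _ _ h4 (hv i hLi) (by
            have e1 : ∑ j, (n j : ZMod N) * v j + ((-1 : ℤ) : ZMod N) * v i + v i = ∑ j, (n j : ZMod N) * v j := by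
              push_cast; ring
            rw [e1]
            exact hxP)
          have e1 : ∑ j, (n j : ZMod N) * v j + ((-1 : ℤ) : ZMod N) * v i + v i = ∑ j, (n j : ZMod N) * v j := by
            push_cast; ring
          rw [e1, h2, hS'i] at h3
          linarith [h3.1]
  have hlin' : ∀ n : Fin r → ℤ, (∀ i, |n i| ≤ (L i : ℤ)) → S (∑ i, (n i : ZMod N) * v i) = ∑ i, n i * S' i :=
    fun n hn => hlin _ n hn rfl
  have hnP : ∀ n : Fin r → ℤ, (∀ i, |n i| ≤ (L i : ℤ)) → ∑ i, (n i : ZMod N) * v i ∈ cosetProg H v L := by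
    intro n hn
    have := hmem 0 H.zero_mem n hn
    simpa using this
  refine ⟨S', fun i => if S' i = 0 then 0 else L i, ?_, ?_, ?_, ?_⟩
  · intro i
    rw [hS']
    simp only
    by_cases h : L i = 0
    · simp only [h, if_true, abs_zero]; positivity
    · simp only [h, if_false]
      push_cast
      exact hSb _ (hv i h)
  · intro i
    simp only
    by_cases h : S' i = 0
    · simp [h]
    · simp only [h, if_false]
      have h1 : ∀ j, |(if j = i then (L i : ℤ) else 0)| ≤ (L j : ℤ) := by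
        intro j
        by_cases h : j = i
        · subst h; simp
        · simp [h]
      have h2 := hlin' (fun j => if j = i then (L i : ℤ) else 0) h1
      have h3 := hSb _ (hnP _ h1)
      rw [h2] at h3
      simp only [ite_mul, zero_mul, Finset.sum_ite_eq', Finset.mem_univ, if_true] at h3
      rw [abs_mul] at h3
      have h4 : 1 ≤ |S' i| := Int.one_le_abs h
      have h5 : (L i : ℤ) ≤ |(L i : ℤ)| * |S' i| := by
        rw [Nat.abs_cast]
        nlinarith [Int.natCast_nonneg (L i)]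
      have h6 : (L i : ℤ) ≤ K * M := h5.trans h3
      exact_mod_cast h6
  · intro z hz
    rw [Finset.mem_coe, mem_gap] at hz
    obtain ⟨n, hn, rfl⟩ := hz
    have hn' : ∀ i, |n i| ≤ (L i : ℤ) := by
      intro i
      have := hn i
      by_cases h : S' i = 0
      · rw [if_pos h] at this
        refine this.trans ?_
        simp
      · rwa [if_neg h] at this
    rw [← hlin' n hn']
    exact hS _ (hnP n hn')
  · -- counting
    have hmaps : ∀ x ∈ cosetProg H v L, (S x, E x) ∈ ((gap S' fun i => if S' i = 0 then 0 else L i) ×ˢ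
        Finset.Icc (-((K * w : ℕ) : ℤ)) ((K * w : ℕ) : ℤ)) := by
      intro x hx
      rw [Finset.mem_product]
      refine ⟨?_, ?_⟩
      · obtain ⟨h, hh, n, hn, hxe⟩ := hx
        have h0 := hHt h hh
        rw [h0, zero_add] at hxe
        simp only
        rw [hxe, hlin' n hn, mem_gap]
        refine ⟨fun i => if S' i = 0 then 0 else n i, fun i => ?_, ?_⟩
        · by_cases h : S' i = 0
          · simp [h]
          · simp only [h, if_false]; exact hn i
        · refine Finset.sum_congr rfl fun i _ => ?_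
          by_cases h : S' i = 0
          · simp [h]
          · simp [h]
      · simp only
        rw [Finset.mem_Icc, ← abs_le]
        push_cast
        exact hE x hx
    have hinj : Set.InjOn (fun x => (S x, E x)) (cosetProg H v L) := by
      intro x hx y hy hxy
      simp only [Prod.mk.injEq] at hxy
      rw [hSE x hx, hSE y hy, hxy.1, hxy.2]
    have h1 := Set.ncard_le_ncard_of_injOn (s := cosetProg H v L)
      (t := (((gap S' fun i => if S' i = 0 then 0 else L i) ×ˢ
        Finset.Icc (-((K * w : ℕ) : ℤ)) ((K * w : ℕ) : ℤ) : Finset (ℤ × ℤ)) : Set (ℤ × ℤ)))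
      (fun x => (S x, E x)) (fun x hx => by exact_mod_cast hmaps x hx) hinj (Finset.finite_toSet _)
    rw [Set.ncard_coe_finset, Finset.card_product, Int.card_Icc] at h1
    refine h1.trans (le_of_eq ?_)
    have e1 : (((K * w : ℕ) : ℤ) + 1 - -((K * w : ℕ) : ℤ)).toNat = 2 * K * w + 1 := by
      have : ((K * w : ℕ) : ℤ) + 1 - -((K * w : ℕ) : ℤ) = ((2 * K * w + 1 : ℕ) : ℤ) := by push_cast; ring
      rw [this, Int.toNat_natCast]
    rw [e1, mul_comm]

/-- **Transfer of Bohr sets.** -/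
theorem transfer_bohr {K M w N : ℕ} (hK : 1 ≤ K) (hw : 1 ≤ w) (hM : 1 ≤ M)
    (hN : 4 * K * w * (3 * K * M + 1) ≤ N)
    {A : Finset ℤ} (hA : A ⊆ Finset.Icc 1 (M : ℤ)) (Γ : Finset (ZMod N)) (ε : ℝ)
    (h : ∀ x : ZMod N,
      (∀ γ ∈ Γ, |((γ * x).val : ℝ) / (N : ℝ) - ((round (((γ * x).val : ℝ) / (N : ℝ)) : ℤ) : ℝ)| ≤ ε) →
      x ∈ kD K (fat (4 * K * w) w N A)) :
    ∃ Θ : Finset UnitAddCircle, Θ.card ≤ Γ.card ∧ bohrSet Θ ε M ⊆ kDiff K A := by
  classical
  have hN0 : 0 < N := by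
    have : 0 < 4 * K * w * (3 * K * M + 1) := by positivity
    omega
  have : NeZero N := ⟨hN0.ne'⟩
  have hNR : (0 : ℝ) < N := by exact_mod_cast hN0
  obtain ⟨D, hD⟩ : ∃ D : ℕ, D = 4 * K * w := ⟨_, rfl⟩
  refine ⟨Γ.image fun γ => (((((γ.val : ℕ) : ℝ) * D) / N : ℝ) : UnitAddCircle), Finset.card_image_le, ?_⟩
  intro n hn
  obtain ⟨hn1, hn2⟩ := hn
  have hx := h ((n * (D : ℤ) : ℤ) : ZMod N) (by
    intro γ hγ
    have h1 := hn2 _ (Finset.mem_image_of_mem _ hγ)
    rw [← UnitAddCircle.norm_eq]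
    refine le_of_eq_of_le ?_ h1
    congr 1
    rw [← AddCircle.coe_zsmul, zsmul_eq_mul]
    -- the two reals differ by an integer
    obtain ⟨z, hz⟩ : ∃ z : ℤ, (((γ * ((n * (D : ℤ) : ℤ) : ZMod N)).val : ℕ) : ℤ) =
        (γ.val : ℤ) * (n * (D : ℤ)) + z * N := by
      have h2 : ((((γ * ((n * (D : ℤ) : ℤ) : ZMod N)).val : ℕ) : ℤ) : ZMod N) =
          (((γ.val : ℤ) * (n * (D : ℤ)) : ℤ) : ZMod N) := by
        push_cast
        rw [ZMod.natCast_zmod_val, ZMod.natCast_zmod_val]
      rw [ZMod.intCast_eq_intCast_iff_dvd_sub] at h2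
      obtain ⟨z, hz⟩ := h2
      exact ⟨-z, by linarith⟩
    have h3 : (((γ * ((n * (D : ℤ) : ℤ) : ZMod N)).val : ℕ) : ℝ) =
        (γ.val : ℝ) * (n * (D : ℝ)) + z * N := by exact_mod_cast hz
    rw [h3]
    have h4 : ((γ.val : ℝ) * (n * (D : ℝ)) + z * N) / N =
        (n : ℝ) * (((γ.val : ℝ) * D) / N) + z := by
      field_simp
    rw [h4, AddCircle.coe_add]
    have h5 : (((z : ℤ) : ℝ) : UnitAddCircle) = 0 := by
      rw [AddCircle.coe_eq_zero_iff]
      exact ⟨z, by simp⟩
    rw [h5, add_zero])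
  obtain ⟨s, e, hs, he, hse⟩ := rep hx
  have h0 : (((n - s) * ((4 * K * w : ℕ) : ℤ) + (-e) : ℤ) : ZMod N) = 0 := by
    have h1 : (((n - s) * ((4 * K * w : ℕ) : ℤ) + (-e) : ℤ) : ZMod N) =
        ((n * (D : ℤ) : ℤ) : ZMod N) - ((s * ((4 * K * w : ℕ) : ℤ) + e : ℤ) : ZMod N) := by
      rw [hD]
      push_cast
      ring
    rw [h1, hse, sub_self]
  have hsb := kDiff_abs hA hs
  have hKM : (M : ℤ) ≤ K * M := by
    have : (1 : ℤ) ≤ K := by exact_mod_cast hK
    nlinarith [Int.natCast_nonneg M]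
  have hKw : (1 : ℤ) ≤ K * w := by
    have : 1 ≤ K * w := Nat.mul_pos hK hw
    exact_mod_cast this
  rw [abs_le] at hsb hn1 he
  obtain ⟨h1, h2⟩ := uniq (Q := 3 * K * M) (D := 4 * K * w) (N := N) hN (by
    rw [abs_le]
    push_cast
    constructor <;> linarith) (by
    rw [abs_lt]
    push_cast
    constructor <;> linarith) h0
  have h3 : n = s := by linarith
  rw [h3]
  exact hs

end Pool.Agent.J4.H30.KB
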