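import Pool.Agent.J4.H30.KB.Bohr
import Pool.Agent.J4.H30.KB.Transfer

/-!
# Bohr sets and coset progressions in `K A - K A`: the set and the choice of the parameters
-/

set_option autoImplicit false

namespace Pool.Agent.J4.H30.KB

open Finset Pool.Agent.Y940.BogK

/-- the family of the progressions -/
noncomputable def gapFam (B r : ℕ) : Finset (Finset ℤ) :=
  (Finset.range (r + 1)).biUnion fun r' =>
    (univ : Finset ((Fin r' → Fin (2 * B + 1)) × (Fin r' → Fin (B + 1)))).image fun κ =>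
      gap (fun i => ((κ.1 i : ℕ) : ℤ) - B) (fun i => (κ.2 i : ℕ))

lemma card_gapFam (B r : ℕ) : (gapFam B r).card ≤ (r + 1) * ((2 * B + 1) * (B + 1)) ^ r := by
  unfold gapFam
  refine Finset.card_biUnion_le.trans ?_
  calc ∑ r' ∈ Finset.range (r + 1), ((univ : Finset ((Fin r' → Fin (2 * B + 1)) × (Fin r' → Fin (B + 1)))).image
        fun κ => gap (fun i => ((κ.1 i : ℕ) : ℤ) - B) (fun i => (κ.2 i : ℕ))).card
      ≤ ∑ r' ∈ Finset.range (r + 1), ((2 * B + 1) * (B + 1)) ^ r := by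
        refine Finset.sum_le_sum fun r' hr' => ?_
        refine Finset.card_image_le.trans ?_
        rw [Finset.card_univ, Fintype.card_prod, Fintype.card_fun, Fintype.card_fun, Fintype.card_fin,
          Fintype.card_fin, Fintype.card_fin, ← mul_pow]
        exact Nat.pow_le_pow_right (by positivity) (by rw [Finset.mem_range] at hr'; omega)
    _ = _ := by rw [Finset.sum_const, Finset.card_range, smul_eq_mul]

lemma gap_mem {B r r' : ℕ} (h : r' ≤ r) (s : Fin r' → ℤ) (L : Fin r' → ℕ) (hs : ∀ i, |s i| ≤ (B : ℤ))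
    (hL : ∀ i, L i ≤ B) : gap s L ∈ gapFam B r := by
  unfold gapFam
  rw [Finset.mem_biUnion]
  refine ⟨r', Finset.mem_range.2 (by omega), Finset.mem_image.2 ⟨(fun i => ⟨(s i + B).toNat, ?_⟩,
    fun i => ⟨L i, ?_⟩), Finset.mem_univ _, ?_⟩⟩
  · have := abs_le.1 (hs i)
    omega
  · have := hL i
    omega
  · congr 1
    funext i
    have := abs_le.1 (hs i)
    simp only
    omega

/-- the set in the integers -/
theorem int_main (K t d r J : ℕ) (hK : 1 ≤ K) (ht : 2 ≤ t)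
    (hJ : 4 * (J : ℝ) ≤ Real.exp (d / (2 * (t : ℝ) ^ 2)))
    (hcount : (r + 1) * ((2 * (K * (4 * K * t ^ 2 + 1) ^ d) + 1) * (K * (4 * K * t ^ 2 + 1) ^ d + 1)) ^ r +
      (((4 * K * t ^ 2 + 1) ^ d) ^ 2) ^ (t * d) * ((4 * K * t ^ 2 + 1) ^ d + 1) < 2 ^ J) :
    ∃ A : Finset ℤ, A ⊆ Finset.Icc 1 (((4 * K * t ^ 2 + 1) ^ d : ℕ) : ℤ) ∧ (2 * t ^ 2 + 1) ^ d ≤ 2 * A.card ∧
      (∀ (Θ : Finset UnitAddCircle) (ρ : ℝ), 0 < ρ → ρ ≤ 1 / 2 →
        bohrSet Θ ρ ((4 * K * t ^ 2 + 1) ^ d) ⊆ kDiff K A → t ^ d ≤ 32 ^ d * ⌈2 / ρ⌉₊ ^ (2 * Θ.card)) ∧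
      ∀ r' ≤ r, ∀ (s : Fin r' → ℤ) (L : Fin r' → ℕ), (∀ i, |s i| ≤ ((K * (4 * K * t ^ 2 + 1) ^ d : ℕ) : ℤ)) →
        (∀ i, L i ≤ K * (4 * K * t ^ 2 + 1) ^ d) → (gap s L : Set ℤ) ⊆ kDiff K A →
        (gap s L).card ^ 2 * t ^ d ≤ 32 ^ d * ((4 * K * t ^ 2 + 1) ^ d) ^ 2 := by
  classical
  obtain ⟨M, hM⟩ : ∃ M : ℕ, M = (4 * K * t ^ 2 + 1) ^ d := ⟨_, rfl⟩
  rw [← hM] at hcount ⊢
  obtain ⟨A, h1, h2, h3, h4⟩ := family K t d J hK ht hJ (gapFam (K * M) r ∪ bohrFam M (M ^ 2) (t * d)) (by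
    refine (Finset.card_union_le _ _).trans_lt ?_
    exact (Nat.add_le_add (card_gapFam _ _) (card_bohrFam _ _ _)).trans_lt hcount)
  rw [← hM] at h1 h4
  have hM1 : 1 ≤ M := by rw [hM]; exact Nat.one_le_pow _ _ (by positivity)
  have htM : t ^ d ≤ M := by
    rw [hM]
    refine Nat.pow_le_pow_left ?_ _
    nlinarith
  refine ⟨A, h1, h2, fun Θ ρ hρ0 hρ1 hsub => ?_, fun r' hr' s L hs hL hsub => ?_⟩
  · exact bohr_of_family (mm := t * d) hM1 htM le_rfl (fun F hF => h4 F (Finset.mem_union_right _ hF)) Θ ρ hρ0 hρ1 hsub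
  · exact h4 _ (Finset.mem_union_left _ (gap_mem hr' s L hs hL)) hsub

/-- the set in `ℤ/N` -/
theorem zmod_main (K t d r J : ℕ) (hK : 1 ≤ K) (ht : 2 ≤ t)
    (hJ : 4 * (J : ℝ) ≤ Real.exp (d / (2 * (t : ℝ) ^ 2)))
    (hcount : (r + 1) * ((2 * (K * (4 * K * t ^ 2 + 1) ^ d) + 1) * (K * (4 * K * t ^ 2 + 1) ^ d + 1)) ^ r +
      (((4 * K * t ^ 2 + 1) ^ d) ^ 2) ^ (t * d) * ((4 * K * t ^ 2 + 1) ^ d + 1) < 2 ^ J) :
    ∃ N₀ : ℕ, ∀ N : ℕ, N₀ ≤ N → ∀ m : ℕ, 64 * K ^ 2 * (2 * K) ^ d * m ≤ N →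
      ∃ B : Finset (ZMod N), B.card = m ∧
        (∀ (Γ : Finset (ZMod N)) (ε : ℝ), 0 < ε → ε ≤ 1 / 2 →
          (∀ x : ZMod N,
            (∀ γ ∈ Γ, |((γ * x).val : ℝ) / (N : ℝ) - ((round (((γ * x).val : ℝ) / (N : ℝ)) : ℤ) : ℝ)| ≤ ε) →
            x ∈ kD K B) → t ^ d ≤ 32 ^ d * ⌈2 / ε⌉₊ ^ (2 * Γ.card)) ∧
        ∀ r' ≤ r, ∀ (H : AddSubgroup (ZMod N)) (v : Fin r' → ZMod N) (L : Fin r' → ℕ),
          cosetProg H v L ⊆ kD K B → (cosetProg H v L).ncard ^ 2 * t ^ d ≤ 32 ^ d * N ^ 2 := by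
  classical
  obtain ⟨A, hA1, hA2, hA3, hA4⟩ := int_main K t d r J hK ht hJ hcount
  obtain ⟨M, hM⟩ : ∃ M : ℕ, M = (4 * K * t ^ 2 + 1) ^ d := ⟨_, rfl⟩
  rw [← hM] at hA1 hA3 hA4
  have hM1 : 1 ≤ M := by rw [hM]; exact Nat.one_le_pow _ _ (by positivity)
  refine ⟨4 * K * (3 * K * M + 1), fun N hN m hm => ?_⟩
  have hpos : 0 < 4 * K * (3 * K * M + 1) := by positivity
  have hNpos : 0 < N := by omega
  have : NeZero N := ⟨hNpos.ne'⟩
  obtain ⟨w, hw⟩ : ∃ w : ℕ, w = N / (4 * K * (3 * K * M + 1)) := ⟨_, rfl⟩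
  have hw1 : 1 ≤ w := by
    rw [hw]
    exact (Nat.one_le_div_iff hpos).2 hN
  have hwN : 4 * K * w * (3 * K * M + 1) ≤ N := by
    have e1 := Nat.div_mul_le_self N (4 * K * (3 * K * M + 1))
    rw [← hw] at e1
    calc 4 * K * w * (3 * K * M + 1) = w * (4 * K * (3 * K * M + 1)) := by ring
      _ ≤ N := e1
  have hKM : 1 ≤ K * M := Nat.mul_pos hK hM1
  have hNw : N ≤ 32 * K ^ 2 * M * w := by
    have e1 : N < 4 * K * (3 * K * M + 1) * (w + 1) := by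
      have := Nat.lt_mul_div_succ N hpos
      rwa [← hw] at this
    have e2 : 4 * K * (3 * K * M + 1) * (w + 1) ≤ 4 * K * (4 * (K * M)) * (2 * w) :=
      Nat.mul_le_mul (Nat.mul_le_mul_left _ (by nlinarith)) (by omega)
    calc N ≤ 4 * K * (4 * (K * M)) * (2 * w) := e1.le.trans e2
      _ = 32 * K ^ 2 * M * w := by ring
  have hcardF := card_fat (w := w) (N := N) hK hA1 hwN
  -- the size
  have hsize : m ≤ (fat (4 * K * w) w N A).card := by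
    rw [hcardF]
    have e1 : M ≤ (2 * K) ^ d * (2 * t ^ 2 + 1) ^ d := by
      rw [hM, ← mul_pow]
      refine Nat.pow_le_pow_left ?_ _
      nlinarith
    have e2 : M ≤ (2 * K) ^ d * (2 * A.card) := e1.trans (Nat.mul_le_mul_left _ hA2)
    have e3 : 64 * K ^ 2 * (2 * K) ^ d * m ≤ 64 * K ^ 2 * (2 * K) ^ d * (A.card * w) := by
      calc 64 * K ^ 2 * (2 * K) ^ d * m ≤ N := hm
        _ ≤ 32 * K ^ 2 * M * w := hNw
        _ ≤ 32 * K ^ 2 * ((2 * K) ^ d * (2 * A.card)) * w :=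
          Nat.mul_le_mul_right _ (Nat.mul_le_mul_left _ e2)
        _ = _ := by ring
    exact Nat.le_of_mul_le_mul_left e3 (by positivity)
  obtain ⟨B, hBF, hBc⟩ := Finset.exists_subset_card_eq hsize
  have hmono : kD K B ⊆ kD K (fat (4 * K * w) w N A) := by
    rintro x ⟨a, b, ha, hb, rfl⟩
    exact ⟨a, b, fun i => hBF (ha i), fun i => hBF (hb i), rfl⟩
  refine ⟨B, hBc, fun Γ ε hε hε2 hsub => ?_, fun r' hr' H v L hsub => ?_⟩
  · obtain ⟨Θ, hΘ, hΘs⟩ := transfer_bohr hK hw1 hM1 hwN hA1 Γ ε fun x hx => hmono (hsub x hx)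
    have hfin := hA3 Θ ε hε hε2 hΘs
    refine hfin.trans (Nat.mul_le_mul_left _ (Nat.pow_le_pow_right ?_ (by omega)))
    exact Nat.ceil_pos.2 (by positivity)
  · obtain ⟨s, L', hs, hL', hsub', hcard⟩ := transfer_prog hK hw1 hM1 hwN hA1 H v L (hsub.trans hmono)
    have h1 := hA4 r' hr' s L' hs hL' hsub'
    have h2 : (2 * K * w + 1) * M ≤ N := by
      have e0 : 1 ≤ K * w := Nat.mul_pos hK hw1
      calc (2 * K * w + 1) * M ≤ (3 * (K * w)) * M := Nat.mul_le_mul_right _ (by nlinarith)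
        _ ≤ 4 * K * w * (3 * K * M + 1) := by
          have e1 : M ≤ K * M := Nat.le_mul_of_pos_left _ hK
          nlinarith [Nat.zero_le (K * w)]
        _ ≤ N := hwN
    calc (cosetProg H v L).ncard ^ 2 * t ^ d ≤ ((2 * K * w + 1) * (gap s L').card) ^ 2 * t ^ d :=
          Nat.mul_le_mul_right _ (Nat.pow_le_pow_left hcard 2)
      _ = (2 * K * w + 1) ^ 2 * ((gap s L').card ^ 2 * t ^ d) := by ring
      _ ≤ (2 * K * w + 1) ^ 2 * (32 ^ d * M ^ 2) := Nat.mul_le_mul_left _ h1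
      _ = 32 ^ d * ((2 * K * w + 1) * M) ^ 2 := by ring
      _ ≤ 32 ^ d * N ^ 2 := Nat.mul_le_mul_left _ (Nat.pow_le_pow_left h2 2)

/-- the counting condition -/
lemma count_ok {K t d r J : ℕ} (hK : 1 ≤ K) (ht : 2 ≤ t) (hd : 1 ≤ d)
    (h : 14 * K * t ^ 2 * d * r + 16 * K * t ^ 3 * d ^ 2 + 1 < J) :
    (r + 1) * ((2 * (K * (4 * K * t ^ 2 + 1) ^ d) + 1) * (K * (4 * K * t ^ 2 + 1) ^ d + 1)) ^ r +
      (((4 * K * t ^ 2 + 1) ^ d) ^ 2) ^ (t * d) * ((4 * K * t ^ 2 + 1) ^ d + 1) < 2 ^ J := by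
  obtain ⟨M, hM⟩ : ∃ M : ℕ, M = (4 * K * t ^ 2 + 1) ^ d := ⟨_, rfl⟩
  rw [← hM]
  have hM1 : 1 ≤ M := by rw [hM]; exact Nat.one_le_pow _ _ (by positivity)
  have hM2 : M ≤ 2 ^ (4 * K * t ^ 2 * d) := by
    rw [hM, pow_mul]
    refine Nat.pow_le_pow_left ?_ _
    exact Nat.lt_two_pow_self
  have hK2 : K ≤ 2 ^ K := Nat.lt_two_pow_self.le
  have hKM : 1 ≤ K * M := Nat.mul_pos hK hM1
  have hKt : 1 ≤ K * t ^ 2 * d := Nat.mul_pos (Nat.mul_pos hK (by positivity)) hd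
  have hKtd : K ≤ K * t ^ 2 * d := by
    calc K = K * 1 * 1 := by ring
      _ ≤ K * t ^ 2 * d := Nat.mul_le_mul (Nat.mul_le_mul_left _ (Nat.one_le_pow _ _ (by omega))) hd
  have hQ : (2 * (K * M) + 1) * (K * M + 1) ≤ 2 ^ (13 * (K * t ^ 2 * d)) := by
    calc (2 * (K * M) + 1) * (K * M + 1) ≤ (3 * (K * M)) * (2 * (K * M)) :=
          Nat.mul_le_mul (by omega) (by omega)
      _ = 6 * K ^ 2 * M ^ 2 := by ring
      _ ≤ 2 ^ 3 * (2 ^ K) ^ 2 * (2 ^ (4 * K * t ^ 2 * d)) ^ 2 := by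
          apply Nat.mul_le_mul (Nat.mul_le_mul (by norm_num) (Nat.pow_le_pow_left hK2 2))
            (Nat.pow_le_pow_left hM2 2)
      _ = 2 ^ (3 + K * 2 + 4 * K * t ^ 2 * d * 2) := by rw [← pow_mul, ← pow_mul, ← pow_add, ← pow_add]
      _ ≤ 2 ^ (13 * (K * t ^ 2 * d)) := by
          apply Nat.pow_le_pow_right (by norm_num)
          nlinarith
  have h1 : (r + 1) * ((2 * (K * M) + 1) * (K * M + 1)) ^ r ≤ 2 ^ (14 * K * t ^ 2 * d * r) := by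
    calc (r + 1) * ((2 * (K * M) + 1) * (K * M + 1)) ^ r ≤ 2 ^ r * (2 ^ (13 * (K * t ^ 2 * d))) ^ r :=
          Nat.mul_le_mul (Nat.lt_two_pow_self) (Nat.pow_le_pow_left hQ r)
      _ = 2 ^ (r + 13 * (K * t ^ 2 * d) * r) := by rw [← pow_mul, ← pow_add]
      _ ≤ 2 ^ (14 * K * t ^ 2 * d * r) := by
          apply Nat.pow_le_pow_right (by norm_num)
          nlinarith
  have h2 : (M ^ 2) ^ (t * d) * (M + 1) ≤ 2 ^ (16 * K * t ^ 3 * d ^ 2) := by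
    calc (M ^ 2) ^ (t * d) * (M + 1) ≤ (M ^ 2) ^ (t * d) * (2 * M) := Nat.mul_le_mul_left _ (by omega)
      _ = 2 * M ^ (2 * (t * d) + 1) := by rw [← pow_mul]; ring
      _ ≤ 2 * (2 ^ (4 * K * t ^ 2 * d)) ^ (2 * (t * d) + 1) :=
          Nat.mul_le_mul_left _ (Nat.pow_le_pow_left hM2 _)
      _ = 2 ^ (1 + 4 * K * t ^ 2 * d * (2 * (t * d) + 1)) := by rw [← pow_mul, pow_add, pow_one]
      _ ≤ 2 ^ (16 * K * t ^ 3 * d ^ 2) := by
          apply Nat.pow_le_pow_right (by norm_num)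
          have e1 : 1 ≤ t * d := Nat.mul_pos (by omega) hd
          have e2 : 1 + 4 * K * t ^ 2 * d * (2 * (t * d) + 1) ≤ 1 * (K * t ^ 2 * d) * (t * d) +
              4 * (K * t ^ 2 * d) * (3 * (t * d)) := by nlinarith
          refine e2.trans (le_trans ?_ (le_of_eq (show 16 * (K * t ^ 2 * d) * (t * d) = 16 * K * t ^ 3 * d ^ 2 by ring)))
          nlinarith
  calc (r + 1) * ((2 * (K * M) + 1) * (K * M + 1)) ^ r + (M ^ 2) ^ (t * d) * (M + 1)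
      ≤ 2 ^ (14 * K * t ^ 2 * d * r) + 2 ^ (16 * K * t ^ 3 * d ^ 2) := Nat.add_le_add h1 h2
    _ ≤ 2 ^ (14 * K * t ^ 2 * d * r + 16 * K * t ^ 3 * d ^ 2) + 2 ^ (14 * K * t ^ 2 * d * r + 16 * K * t ^ 3 * d ^ 2) :=
        Nat.add_le_add (Nat.pow_le_pow_right (by norm_num) (by omega)) (Nat.pow_le_pow_right (by norm_num) (by omega))
    _ = 2 ^ (14 * K * t ^ 2 * d * r + 16 * K * t ^ 3 * d ^ 2 + 1) := by rw [pow_succ]; ring
    _ < 2 ^ J := Nat.pow_lt_pow_right (by norm_num) h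

end Pool.Agent.J4.H30.KB
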