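import Pool.Agent.J4.H30.KB.Main

/-!
# Bohr sets and coset progressions in `K A - K A`: the choice of the parameters
-/

set_option autoImplicit false

namespace Pool.Agent.J4.H30.KB

open Finset

/-- all Bohr sets in `K A - K A` have `|Γ| log (1/ε) ≥ b` -/
def BohrBound {N : ℕ} (K : ℕ) (A : Finset (ZMod N)) (b : ℝ) : Prop :=
  ∀ (Γ : Finset (ZMod N)) (ε : ℝ), 0 < ε → ε ≤ 1 / 2 →
    (∀ x : ZMod N,
      (∀ γ ∈ Γ, |((γ * x).val : ℝ) / (N : ℝ) - ((round (((γ * x).val : ℝ) / (N : ℝ)) : ℤ) : ℝ)| ≤ ε) →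
      x ∈ kD K A) → b ≤ Γ.card * Real.log (1 / ε)

/-- all coset progressions in `K A - K A` of rank at most `ρ` have at most `b` elements -/
def ProgBound {N : ℕ} (K : ℕ) (A : Finset (ZMod N)) (ρ b : ℝ) : Prop :=
  ∀ (r : ℕ) (H : AddSubgroup (ZMod N)) (v : Fin r → ZMod N) (L : Fin r → ℕ), (r : ℝ) ≤ ρ →
    cosetProg H v L ⊆ kD K A → ((cosetProg H v L).ncard : ℝ) ≤ b

/-- the growth of the exponential -/
lemma exp_ge {K t : ℕ} {d u : ℝ} (hK : 1 ≤ K) (ht : 2048 ≤ t) (hd : d = 4 * (t : ℝ) ^ 2 * u) (hu : 48 ≤ u)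
    (hu2 : 18 * Real.log (K * t) ≤ u) : 200 * K * d ^ 2 * (t : ℝ) ^ 3 ≤ Real.exp u := by
  have hKr : (1 : ℝ) ≤ K := by exact_mod_cast hK
  have htr : (2048 : ℝ) ≤ t := by exact_mod_cast ht
  have h1 : u ^ 2 ≤ Real.exp (u / 2) := by
    have h2 := Real.pow_div_factorial_le_exp (u / 2) (by positivity) 3
    have h3 : ((Nat.factorial 3 : ℕ) : ℝ) = 6 := by norm_num [Nat.factorial]
    rw [h3] at h2
    refine le_trans ?_ h2
    have : (u / 2) ^ 3 / 6 = u ^ 2 * (u / 48) := by ring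
    rw [this]
    have h4 : 1 ≤ u / 48 := by rw [le_div_iff₀ (by norm_num)]; linarith
    nlinarith [sq_nonneg u]
  have h2 : 3200 * K * (t : ℝ) ^ 7 ≤ Real.exp (u / 2) := by
    have hKt : (0 : ℝ) < K * t := by positivity
    have h3 : ((K : ℝ) * t) ^ 9 ≤ Real.exp (u / 2) := by
      rw [← Real.exp_log (show (0 : ℝ) < (K * t) ^ 9 by positivity), Real.log_pow]
      apply Real.exp_le_exp.2
      push_cast
      linarith
    refine le_trans ?_ h3
    have h4 : (K : ℝ) ≤ (K : ℝ) ^ 9 := le_self_pow₀ hKr (by norm_num)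
    have h5 : (3200 : ℝ) ≤ (t : ℝ) ^ 2 := by nlinarith
    calc 3200 * (K : ℝ) * (t : ℝ) ^ 7 ≤ (t : ℝ) ^ 2 * (K : ℝ) ^ 9 * (t : ℝ) ^ 7 := by gcongr
      _ = _ := by ring
  calc 200 * K * d ^ 2 * (t : ℝ) ^ 3 = (3200 * K * (t : ℝ) ^ 7) * u ^ 2 := by rw [hd]; ring
    _ ≤ Real.exp (u / 2) * Real.exp (u / 2) := mul_le_mul h2 h1 (by positivity) (Real.exp_pos _).le
    _ = Real.exp u := by rw [← Real.exp_add]; congr 1; ring

/-- **General form.** -/
theorem general (K R : ℕ) (hK : 1 ≤ K) (hR : 2 ≤ R) (α : ℝ) (hα : 0 < α)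
    (hℓ : 2 ^ 31 * (R : ℝ) ^ 2 * Real.log (2 * K) * Real.log (2 * K * R) ≤ Real.log (1 / α)) :
    ∃ N₀ : ℕ, ∀ N : ℕ, N₀ ≤ N → ∃ A : Finset (ZMod N), α * N ≤ (A.card : ℝ) ∧ (A.card : ℝ) ≤ 2 * α * N ∧
      BohrBound K A (Real.log (1 / α) * Real.log R / (24 * Real.log (2 * K))) ∧
      ProgBound K A (Real.exp (Real.log (1 / α) / (2 ^ 31 * R ^ 2 * Real.log (2 * K))))
        (Real.exp (-(Real.log (1 / α) * Real.log R / (8 * Real.log (2 * K)))) * N) := by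
  have hKr : (1 : ℝ) ≤ K := by exact_mod_cast hK
  have hRr : (2 : ℝ) ≤ R := by exact_mod_cast hR
  obtain ⟨ℓ, hℓd⟩ : ∃ ℓ : ℝ, ℓ = Real.log (1 / α) := ⟨_, rfl⟩
  obtain ⟨lam, hlam⟩ : ∃ lam : ℝ, lam = Real.log (2 * K) := ⟨_, rfl⟩
  obtain ⟨μ, hμ⟩ : ∃ μ : ℝ, μ = Real.log (2 * K * R) := ⟨_, rfl⟩
  rw [← hℓd, ← hlam, ← hμ] at hℓ
  rw [← hℓd, ← hlam]
  have hlog2 : 0.6931471803 < Real.log 2 := Real.log_two_gt_d9
  have hlam0 : Real.log 2 ≤ lam := by
    rw [hlam]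
    exact Real.log_le_log (by norm_num) (by linarith)
  have hμ0 : 2 * Real.log 2 ≤ μ := by
    rw [hμ, show 2 * Real.log 2 = Real.log 4 by
      rw [show (4 : ℝ) = 2 ^ 2 by norm_num, Real.log_pow]; norm_num]
    exact Real.log_le_log (by norm_num) (by nlinarith)
  have hlampos : 0 < lam := by linarith
  have hR2 : (4 : ℝ) ≤ (R : ℝ) ^ 2 := by nlinarith
  -- `ℓ` is large compared with `lam`
  have hℓ1 : 2 ^ 31 * (R : ℝ) ^ 2 * μ * lam ≤ ℓ := by
    refine le_trans (le_of_eq ?_) hℓ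
    ring
  have hℓ2 : 2 ^ 31 * (R : ℝ) ^ 2 * μ ≤ ℓ / lam := by rwa [le_div_iff₀ hlampos]
  have hℓ3 : 2 ^ 32 ≤ ℓ / lam := by
    refine le_trans ?_ hℓ2
    nlinarith
  obtain ⟨t, ht⟩ : ∃ t : ℕ, t = 1024 * R := ⟨_, rfl⟩
  have htr : (t : ℝ) = 1024 * R := by rw [ht]; push_cast; ring
  have ht2 : 2048 ≤ t := by omega
  obtain ⟨d, hd⟩ : ∃ d : ℕ, d = ⌊ℓ / lam / 2⌋₊ := ⟨_, rfl⟩
  have hd1 : (d : ℝ) ≤ ℓ / lam / 2 := by rw [hd]; exact Nat.floor_le (by linarith)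
  have hd2 : ℓ / lam / 4 ≤ d := by
    have : ℓ / lam / 2 < d + 1 := by rw [hd]; exact Nat.lt_floor_add_one _
    linarith
  have hd3 : 1 ≤ d := by
    have h1 : (1 : ℝ) ≤ d := by linarith
    exact_mod_cast h1
  obtain ⟨u, hu⟩ : ∃ u : ℝ, u = d / (4 * (t : ℝ) ^ 2) := ⟨_, rfl⟩
  have htpos : (0 : ℝ) < t := by rw [htr]; positivity
  have hdu : (d : ℝ) = 4 * (t : ℝ) ^ 2 * u := by rw [hu]; field_simp
  have hu1 : ℓ / (2 ^ 24 * (R : ℝ) ^ 2 * lam) ≤ u := by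
    rw [hu, le_div_iff₀ (by positivity), htr]
    refine le_trans (le_of_eq ?_) hd2
    field_simp
    ring
  have hu2 : 128 * μ ≤ u := by
    refine le_trans ?_ hu1
    rw [le_div_iff₀ (by positivity)]
    refine le_trans (le_of_eq ?_) hℓ
    ring
  have hu3 : 48 ≤ u := by linarith
  have hu4 : 18 * Real.log (K * t) ≤ u := by
    have h1 : (K : ℝ) * t = 512 * (2 * K * R) := by rw [htr]; ring
    rw [h1, Real.log_mul (by norm_num) (by positivity), ← hμ, show (512 : ℝ) = 2 ^ 9 by norm_num, Real.log_pow]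
    push_cast
    linarith
  have hE := exp_ge (d := d) hK ht2 hdu hu3 hu4
  obtain ⟨E, hEd⟩ : ∃ E : ℝ, E = Real.exp u := ⟨_, rfl⟩
  rw [← hEd] at hE
  have hE0 : 0 < E := by rw [hEd]; exact Real.exp_pos _
  obtain ⟨J, hJ⟩ : ∃ J : ℕ, J = ⌊E ^ 2 / 4⌋₊ := ⟨_, rfl⟩
  obtain ⟨r, hr⟩ : ∃ r : ℕ, r = ⌊E⌋₊ := ⟨_, rfl⟩
  have hJ1 : (J : ℝ) ≤ E ^ 2 / 4 := by rw [hJ]; exact Nat.floor_le (by positivity)
  have hJ2 : E ^ 2 / 4 < J + 1 := by rw [hJ]; exact Nat.lt_floor_add_one _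
  have hr1 : (r : ℝ) ≤ E := by rw [hr]; exact Nat.floor_le hE0.le
  have hdr : (1 : ℝ) ≤ d := by exact_mod_cast hd3
  have hJ3 : 4 * (J : ℝ) ≤ Real.exp (d / (2 * (t : ℝ) ^ 2)) := by
    have h1 : Real.exp (d / (2 * (t : ℝ) ^ 2)) = E ^ 2 := by
      rw [hEd, ← Real.exp_nat_mul]
      congr 1
      rw [hdu]
      field_simp
      push_cast
      ring
    rw [h1]
    linarith
  have hcount : 14 * K * t ^ 2 * d * r + 16 * K * t ^ 3 * d ^ 2 + 1 < J := by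
    have hX : (200 : ℝ) * (K * d ^ 2 * (t : ℝ) ^ 3) ≤ E := by linarith
    have htt : (2048 : ℝ) ≤ t := by exact_mod_cast ht2
    have e1 : (K : ℝ) * t ^ 2 * d ≤ K * d ^ 2 * (t : ℝ) ^ 3 / 2048 := by
      have : (K : ℝ) * d ^ 2 * (t : ℝ) ^ 3 = (K * t ^ 2 * d) * (d * t) := by ring
      rw [this, le_div_iff₀ (by norm_num)]
      apply mul_le_mul_of_nonneg_left _ (by positivity)
      nlinarith
    have e2 : (14 : ℝ) * K * t ^ 2 * d * r ≤ E ^ 2 / 100 := by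
      calc (14 : ℝ) * K * t ^ 2 * d * r = 14 * (K * t ^ 2 * d) * r := by ring
        _ ≤ 14 * (K * d ^ 2 * (t : ℝ) ^ 3 / 2048) * E := by gcongr
        _ = (200 * (K * d ^ 2 * (t : ℝ) ^ 3)) * E * (14 / 409600) := by ring
        _ ≤ E * E * (14 / 409600) := by gcongr
        _ ≤ E ^ 2 / 100 := by nlinarith [sq_nonneg E]
    have hE200 : 200 ≤ E := by
      refine le_trans ?_ hX
      have : (1 : ℝ) ≤ K * d ^ 2 * (t : ℝ) ^ 3 := by
        have e3 : (1 : ℝ) ≤ (d : ℝ) ^ 2 := one_le_pow₀ hdr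
        have e4 : (1 : ℝ) ≤ (t : ℝ) ^ 3 := one_le_pow₀ (by linarith)
        calc (1 : ℝ) = 1 * 1 * 1 := by ring
          _ ≤ K * d ^ 2 * (t : ℝ) ^ 3 := by gcongr
      linarith
    have e3 : (16 : ℝ) * K * t ^ 3 * d ^ 2 ≤ E ^ 2 / 100 := by
      calc (16 : ℝ) * K * t ^ 3 * d ^ 2 = (16 / 200) * (200 * (K * d ^ 2 * (t : ℝ) ^ 3)) := by ring
        _ ≤ (16 / 200) * E := by gcongr
        _ ≤ E ^ 2 / 100 := by nlinarith
    have e4 : (14 : ℝ) * K * t ^ 2 * d * r + 16 * K * t ^ 3 * d ^ 2 + 1 < J := by nlinarith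
    exact_mod_cast e4
  obtain ⟨N₁, hN₁⟩ := zmod_main K t d r J hK (by omega) hJ3 (count_ok hK (by omega) hd3 hcount)
  have hℓpos : 0 < ℓ := by
    have : 0 < ℓ / lam := lt_of_lt_of_le (by norm_num) hℓ3
    exact (div_pos_iff_of_pos_right hlampos).1 this
  have hαexp : α = Real.exp (-ℓ) := by
    rw [hℓd, one_div, Real.log_inv, neg_neg, Real.exp_log hα]
  refine ⟨max N₁ ⌈1 / α⌉₊, fun N hN => ?_⟩
  have hN2 : 1 / α ≤ N := by
    have e1 : ⌈1 / α⌉₊ ≤ N := (le_max_right _ _).trans hN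
    exact (Nat.le_ceil _).trans (by exact_mod_cast e1)
  have hαN : 1 ≤ α * N := by
    rw [div_le_iff₀ hα] at hN2
    linarith
  have hNpos : (0 : ℝ) < N := by
    by_contra h
    push Not at h
    nlinarith
  have hm2 : ((⌈α * N⌉₊ : ℕ) : ℝ) ≤ 2 * α * N := by
    have := (Nat.ceil_lt_add_one (by positivity : (0 : ℝ) ≤ α * N)).le
    linarith
  have hm : 64 * K ^ 2 * (2 * K) ^ d * ⌈α * N⌉₊ ≤ N := by
    have h1 : (64 : ℝ) * K ^ 2 * (2 * K) ^ d * (2 * α * N) ≤ N := by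
      have h2 : (128 : ℝ) * K ^ 2 * (2 * K) ^ d ≤ Real.exp ℓ := by
        have h3 : (2 * K : ℝ) ^ (d + 7) = Real.exp ((d + 7 : ℕ) * lam) := by
          rw [Real.exp_nat_mul, hlam, Real.exp_log (by positivity)]
        calc (128 : ℝ) * (K : ℝ) ^ 2 * (2 * (K : ℝ)) ^ d = 2 ^ 5 * ((2 * (K : ℝ)) ^ 2 * (2 * (K : ℝ)) ^ d) := by ring
          _ ≤ (2 * (K : ℝ)) ^ 5 * ((2 * (K : ℝ)) ^ 2 * (2 * (K : ℝ)) ^ d) := by
              apply mul_le_mul_of_nonneg_right _ (by positivity)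
              exact pow_le_pow_left₀ (by norm_num) (by linarith) 5
          _ = (2 * (K : ℝ)) ^ (d + 7) := by ring
          _ = Real.exp ((d + 7 : ℕ) * lam) := h3
          _ ≤ Real.exp ℓ := by
              apply Real.exp_le_exp.2
              push_cast
              have h4 : (d : ℝ) * lam ≤ ℓ / 2 := by
                calc (d : ℝ) * lam ≤ (ℓ / lam / 2) * lam := mul_le_mul_of_nonneg_right hd1 hlampos.le
                  _ = ℓ / 2 := by field_simp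
              have h5 : 14 * lam ≤ ℓ := by
                have : (14 : ℝ) ≤ ℓ / lam := by linarith
                rwa [le_div_iff₀ hlampos] at this
              linarith
      calc (64 : ℝ) * K ^ 2 * (2 * K) ^ d * (2 * α * N) = (128 * K ^ 2 * (2 * K) ^ d) * (α * N) := by ring
        _ ≤ Real.exp ℓ * (α * N) := by gcongr
        _ = N := by rw [hαexp, ← mul_assoc, ← Real.exp_add]; simp
    have h2 : (64 : ℝ) * K ^ 2 * (2 * K) ^ d * (⌈α * N⌉₊ : ℕ) ≤ N :=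
      (mul_le_mul_of_nonneg_left hm2 (by positivity)).trans h1
    exact_mod_cast h2
  obtain ⟨B, hB1, hB2, hB3⟩ := hN₁ N ((le_max_left _ _).trans hN) ⌈α * N⌉₊ hm
  have hlogR : 0 < Real.log R := Real.log_pos (by linarith)
  have hdR : ℓ * Real.log R / (4 * lam) ≤ d * Real.log R := by
    have : ℓ * Real.log R / (4 * lam) = (ℓ / lam / 4) * Real.log R := by
      field_simp
    rw [this]
    exact mul_le_mul_of_nonneg_right hd2 hlogR.le
  refine ⟨B, ?_, ?_, ?_, ?_⟩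
  · rw [hB1]; exact Nat.le_ceil _
  · rw [hB1]; exact hm2
  · -- Bohr sets
    intro Γ ε hε hε2 hsub
    have h1 := hB2 Γ ε hε hε2 hsub
    have h2 : (R : ℝ) ^ d ≤ ((⌈2 / ε⌉₊ : ℕ) : ℝ) ^ (2 * Γ.card) := by
      have h3 : ((t : ℝ)) ^ d ≤ 32 ^ d * ((⌈2 / ε⌉₊ : ℕ) : ℝ) ^ (2 * Γ.card) := by exact_mod_cast h1
      have h4 : (t : ℝ) ^ d = 32 ^ d * (32 * R) ^ d := by rw [htr, ← mul_pow]; congr 1; ring
      rw [h4] at h3
      have h5 := le_of_mul_le_mul_left h3 (by positivity)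
      refine le_trans ?_ h5
      exact pow_le_pow_left₀ (by positivity) (by linarith) d
    obtain ⟨y, hy⟩ : ∃ y : ℝ, y = 1 / ε := ⟨_, rfl⟩
    have hy2 : 2 ≤ y := by
      rw [hy, le_div_iff₀ hε]; linarith
    have hceil : ((⌈2 / ε⌉₊ : ℕ) : ℝ) ≤ y ^ 3 := by
      have e1 : 2 / ε = 2 * y := by rw [hy]; ring
      rw [e1]
      have e2 := (Nat.ceil_lt_add_one (by linarith : (0 : ℝ) ≤ 2 * y)).le
      have e3 : 2 * y + 1 ≤ y ^ 3 := by nlinarith [mul_nonneg (by linarith : (0 : ℝ) ≤ y) (sub_nonneg.2 hy2)]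
      linarith
    have hceil0 : (0 : ℝ) < ((⌈2 / ε⌉₊ : ℕ) : ℝ) := by
      have : 0 < ⌈2 / ε⌉₊ := Nat.ceil_pos.2 (by positivity)
      exact_mod_cast this
    have hlc : Real.log ((⌈2 / ε⌉₊ : ℕ) : ℝ) ≤ 3 * Real.log y := by
      have := Real.log_le_log hceil0 hceil
      rwa [Real.log_pow, Nat.cast_ofNat] at this
    have h6 := Real.log_le_log (by positivity) h2
    rw [Real.log_pow, Real.log_pow] at h6
    push_cast at h6
    rw [← hy]
    have h7 : 2 * (Γ.card : ℝ) * Real.log ((⌈2 / ε⌉₊ : ℕ) : ℝ) ≤ 2 * Γ.card * (3 * Real.log y) :=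
      mul_le_mul_of_nonneg_left hlc (mul_nonneg (by norm_num) (Nat.cast_nonneg _))
    have h8 : ℓ * Real.log R / (24 * lam) = ℓ * Real.log R / (4 * lam) / 6 := by
      field_simp
      ring
    rw [h8]
    linarith
  · -- progressions
    intro r' H v L hr' hsub
    have hr'' : r' ≤ r := by
      rw [hr]
      apply Nat.le_floor
      refine hr'.trans ?_
      rw [hEd]
      apply Real.exp_le_exp.2
      refine le_trans ?_ hu1
      apply div_le_div_of_nonneg_left hℓpos.le (by positivity)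
      have : (0 : ℝ) ≤ (R : ℝ) ^ 2 * lam := by positivity
      nlinarith
    have h1 := hB3 r' hr'' H v L hsub
    have h2 : ((cosetProg H v L).ncard : ℝ) ^ 2 * (R : ℝ) ^ d ≤ (N : ℝ) ^ 2 := by
      have h3 : ((cosetProg H v L).ncard : ℝ) ^ 2 * (t : ℝ) ^ d ≤ 32 ^ d * (N : ℝ) ^ 2 := by exact_mod_cast h1
      have h4 : (t : ℝ) ^ d = 32 ^ d * (32 * R) ^ d := by rw [htr, ← mul_pow]; congr 1; ring
      rw [h4] at h3
      have h5 : ((cosetProg H v L).ncard : ℝ) ^ 2 * (32 * R) ^ d ≤ (N : ℝ) ^ 2 := by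
        refine le_of_mul_le_mul_left ?_ (show (0 : ℝ) < 32 ^ d by positivity)
        linarith
      refine le_trans ?_ h5
      apply mul_le_mul_of_nonneg_left _ (by positivity)
      exact pow_le_pow_left₀ (by positivity) (by linarith) d
    have h3 : (R : ℝ) ^ d = Real.exp (d * Real.log R) := by
      rw [Real.exp_nat_mul, Real.exp_log (by positivity)]
    rw [h3] at h2
    have h4 : ((cosetProg H v L).ncard : ℝ) ^ 2 ≤
        (Real.exp (-(ℓ * Real.log R / (8 * lam))) * N) ^ 2 := by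
      calc ((cosetProg H v L).ncard : ℝ) ^ 2 =
            (((cosetProg H v L).ncard : ℝ) ^ 2 * Real.exp (d * Real.log R)) * Real.exp (-(d * Real.log R)) := by
            rw [mul_assoc, ← Real.exp_add, add_neg_cancel, Real.exp_zero, mul_one]
        _ ≤ (N : ℝ) ^ 2 * Real.exp (-(d * Real.log R)) := mul_le_mul_of_nonneg_right h2 (Real.exp_pos _).le
        _ ≤ (N : ℝ) ^ 2 * Real.exp (-(ℓ * Real.log R / (4 * lam))) := by
            apply mul_le_mul_of_nonneg_left _ (by positivity)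
            apply Real.exp_le_exp.2
            linarith
        _ = _ := by
            rw [mul_pow, ← Real.exp_nat_mul, mul_comm]
            congr 2
            push_cast
            field_simp
            ring
    exact (pow_le_pow_iff_left₀ (by positivity) (by positivity) (by norm_num)).1 h4

end Pool.Agent.J4.H30.KB
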